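import Pool.Agent.R782.Seven

/-!
The universal coverings of the two closed `7`-manifolds are det-`L²`-acyclic.
-/

open scoped Matrix InnerProductSpace

noncomputable section

namespace Pool.Agent.R782

open Pool.Agent.Helper993.HeisDet Pool.Agent.Helper993.Cpx Pool.Agent.TH630.Tor
  Pool.Agent.Helper993.SP Pool.Agent.Helper993.FK Pool.Agent.Helper993.Delta ContinuousLinearMap
  Pool.Agent.Helper993.LT

/-- the homotopies -/
def H0 (_ : Fin 1) : Row 3 (Heis ℤ) := [(2, 1, 1)]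
def H1 : Fin 3 → Row 4 (Heis ℤ) := ![[(1, -1, 1)], [(2, -1, 1)], []]
def H2 : Fin 4 → Row 2 (Heis ℤ) := ![[(0, 1, 1)], [], [], [(1, 1, ⟨0, 0, 1⟩), (1, -1, 1)]]

/-- the comparison of the two complexes in degree three -/
def TM : Fin 2 → Row 2 (Heis ℤ) :=
  ![[(0, 1, 1)], [(1, 1, 1), (1, 10, ⟨1, 0, 0⟩), (1, -10, ⟨1, 1, 0⟩)]]

theorem K0 : toM H0 * toM B1 = toM (zM 1) := by
  rw [toM_mul]; exact toM_eq (by decide +kernel)

theorem K1 : toM B1 * toM H0 + toM H1 * toM B2 = toM (zM 3) := by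
  rw [toM_mul, toM_mul, toM_add]; exact toM_eq (by decide +kernel)

theorem K2 : toM B2 * toM H1 + toM H2 * toM (B3 false) = toM (zM 4) := by
  rw [toM_mul, toM_mul, toM_add]; exact toM_eq (by decide +kernel)

theorem K3 : toM (B3 false) * toM H2 = toM (zM 2) := by
  rw [toM_mul]; exact toM_eq (by decide +kernel)

theorem K4 : toM TM * toM (B3 false) = toM (B3 true) := by
  rw [toM_mul]; exact toM_eq (by decide +kernel)

/-- the second unit vector, as a column and as a row, and the projection to the first one -/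
def eC : Fin 2 → Row 1 (Heis ℤ) := ![[], [(0, 1, 1)]]
def eR (_ : Fin 1) : Row 2 (Heis ℤ) := [(1, 1, 1)]
def pP : Fin 2 → Row 2 (Heis ℤ) := ![[(0, 1, 1)], []]

theorem U1 : toM TM * toM eC = toM eC * toM aR := by
  rw [toM_mul, toM_mul]; exact toM_eq (by decide +kernel)

theorem U2 : toM TM * toM pP + toM eC * toM eR = toM (oR 2) := by
  rw [toM_mul, toM_mul, toM_add]; exact toM_eq (by decide +kernel)

theorem U3 : toM pP * toM TM = toM pP := by
  rw [toM_mul]; exact toM_eq (by decide +kernel)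

theorem U4 : toM eR * toM TM * toM eC = toM aR := by
  rw [toM_mul, toM_mul]; exact toM_eq (by decide +kernel)

theorem U5 : toM pP + toM eC * toM eR = toM (oR 2) := by
  rw [toM_mul, toM_add]; exact toM_eq (by decide +kernel)

/-- the ring homomorphism -/
def RQ : MonoidAlgebra ℤ (Heis ℤ) →+* MonoidAlgebra ℚ (Heis ℤ) :=
  MonoidAlgebra.mapRingHom (Heis ℤ) (Int.castRingHom ℚ)

theorem map_toQ {r s : ℕ} (A : Matrix (Fin r) (Fin s) (MonoidAlgebra ℤ (Heis ℤ))) :
    A.map toQ = A.map RQ := rfl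

/-- the central element -/
def hz : Heis ℤ := ⟨0, 0, 1⟩

theorem hz_central (g : Heis ℤ) : hz * g = g * hz := by
  ext <;> simp [hz, add_comm]

theorem hz_order : ¬ IsOfFinOrder hz := by
  rw [isOfFinOrder_iff_pow_eq_one]
  rintro ⟨n, hn, h⟩
  have h3 : hz ^ n = ⟨0, 0, n⟩ := by
    have := zpow_z n
    rwa [zpow_natCast] at this
  rw [h3] at h
  have h4 := congrArg Heis.c h
  simp at h4
  omega

theorem RQ_zM (r : ℕ) : (toM (zM r)).map RQ = zeta hz r := by
  rw [toM_zM, Matrix.diagonal_map (map_zero _)]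
  unfold zeta
  congr 1
  funext i
  rw [map_sub, map_one]
  congr 1
  refine (MonoidAlgebra.mapRingHom_single _ _ _).trans ?_
  simp [hz]

theorem RQ_one (r : ℕ) : (1 : Matrix (Fin r) (Fin r) (MonoidAlgebra ℤ (Heis ℤ))).map RQ = 1 :=
  Matrix.map_one _ (map_zero _) (map_one _)

theorem V0 : (toM H0).map RQ * (toM B1).map RQ = zeta hz 1 := by
  rw [← Matrix.map_mul, K0, RQ_zM]

theorem V1 : (toM B1).map RQ * (toM H0).map RQ + (toM H1).map RQ * (toM B2).map RQ
    = zeta hz 3 := by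
  rw [← Matrix.map_mul, ← Matrix.map_mul, ← Matrix.map_add _ (map_add _), K1, RQ_zM]

theorem V2 : (toM B2).map RQ * (toM H1).map RQ + (toM H2).map RQ * (toM (B3 false)).map RQ
    = zeta hz 4 := by
  rw [← Matrix.map_mul, ← Matrix.map_mul, ← Matrix.map_add _ (map_add _), K2, RQ_zM]

theorem V3 : (toM (B3 false)).map RQ * (toM H2).map RQ = zeta hz 2 := by
  rw [← Matrix.map_mul, K3, RQ_zM]

theorem V4 : rMul ((toM (B3 true)).map RQ)
    = rMul ((toM (B3 false)).map RQ) ∘L rMul ((toM TM).map RQ) := by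
  rw [← rMul_mul, ← Matrix.map_mul, K4]

theorem pullElt_refl : pullElt (MulEquiv.refl (Heis ℤ)) = elt ℤ 10 := by
  unfold pullElt
  simp only [MonoidAlgebra.mapDomain]
  have h : ((MulEquiv.refl (Heis ℤ)).symm : Heis ℤ → Heis ℤ) = id := rfl
  rw [h, Finsupp.mapDomain_id]

theorem RQ_aR : (toM aR).map RQ = (one1 (pullElt (MulEquiv.refl (Heis ℤ)))).map toQ := by
  rw [toM_aR, pullElt_refl]
  rfl

theorem TM_inj (v : L2Pow (Heis ℤ) 2) (hv : rMul ((toM TM).map RQ) v = 0) : v = 0 := by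
  refine tri_inj _ ((toM pP).map RQ) ((toM eC).map RQ) ((toM eR).map RQ)
    ((toM aR).map RQ) ?_ ?_ ?_ v hv
  · rw [← Matrix.map_mul, U1, Matrix.map_mul]
  · rw [← Matrix.map_mul, ← Matrix.map_mul, ← Matrix.map_add _ (map_add _), U2, toM_oR, RQ_one]
  · rw [RQ_aR]
    exact elt_inj _

theorem TM_adj_inj (v : L2Pow (Heis ℤ) 2) (hv : (rMul ((toM TM).map RQ)).adjoint v = 0) :
    v = 0 := by
  refine tri_adj_inj _ ((toM pP).map RQ) ((toM eC).map RQ) ((toM eR).map RQ)
    ((toM aR).map RQ) ?_ ?_ ?_ ?_ v hv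
  · rw [← Matrix.map_mul, U3]
  · rw [← Matrix.map_mul, ← Matrix.map_mul, U4]
  · rw [← Matrix.map_mul, ← Matrix.map_add _ (map_add _), U5, toM_oR, RQ_one]
  · rw [RQ_aR, adjoint_rMul, ← toQ_adjZ]
    exact elt_adj_inj _

theorem ac0 (v : L2Pow (Heis ℤ) 1) (hv : (rMul ((toM B1).map RQ)).adjoint v = 0) : v = 0 := by
  refine homotopy_inj hz_central hz_order (0 : Matrix (Fin 1) (Fin 1) _) 0
    ((toM H0).map RQ) ((toM B1).map RQ) ?_ v ?_ hv
  · rw [Matrix.zero_mul, zero_add, V0]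
  · rw [rMul_zero']
    rfl

theorem ac1 (v : L2Pow (Heis ℤ) 3) (h1 : rMul ((toM B1).map RQ) v = 0)
    (hv : (rMul ((toM B2).map RQ)).adjoint v = 0) : v = 0 :=
  homotopy_inj hz_central hz_order _ _ _ _ V1 v h1 hv

theorem ac2f (v : L2Pow (Heis ℤ) 4) (h1 : rMul ((toM B2).map RQ) v = 0)
    (hv : (rMul ((toM (B3 false)).map RQ)).adjoint v = 0) : v = 0 :=
  homotopy_inj hz_central hz_order _ _ _ _ V2 v h1 hv

theorem ac2 (b : Bool) (v : L2Pow (Heis ℤ) 4) (h1 : rMul ((toM B2).map RQ) v = 0)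
    (hv : (rMul ((toM (B3 b)).map RQ)).adjoint v = 0) : v = 0 := by
  cases b with
  | false => exact ac2f v h1 hv
  | true => exact ac2f v h1 (TM_adj_inj _ (adj_comp_zero V4 hv))

theorem ac3f (v : L2Pow (Heis ℤ) 2) (h1 : rMul ((toM (B3 false)).map RQ) v = 0) : v = 0 := by
  refine homotopy_inj hz_central hz_order _ ((toM H2).map RQ)
    (0 : Matrix (Fin 2) (Fin 2) _) 0 ?_ v h1 ?_
  · rw [Matrix.zero_mul, add_zero, V3]
  · rw [rMul_zero', map_zero]
    rfl

theorem ac3 (b : Bool) (v : L2Pow (Heis ℤ) 2) (h1 : rMul ((toM (B3 b)).map RQ) v = 0) :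
    v = 0 := by
  cases b with
  | false => exact ac3f v h1
  | true =>
    have h2 : rMul ((toM (B3 false)).map RQ) (rMul ((toM TM).map RQ) v) = 0 := by
      rw [← ContinuousLinearMap.comp_apply, ← V4]
      exact h1
    exact TM_inj _ (ac3f _ h2)

/-- The closed `7`-manifolds have det-`L²`-acyclic universal coverings. -/
theorem hcx_acyclic (b : Bool) : (hcx b).sevenManifold.DetL2Acyclic := by
  apply seven_acyclic (hcx b) chain chain_anti chain_inf
  have e1 : (hcx b).b1 = toM B1 := b1_eq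
  have e2 : (hcx b).b2 = toM B2 := b2_eq
  apply seven_inj
  · rw [e1]; exact ac0
  · rw [e1, e2]; exact ac1
  · rw [e2]; exact ac2 b
  · exact ac3 b

end Pool.Agent.R782
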