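import Pool.Agent.TH630.Tor.Cx
import Pool.Agent.Y692.FK.Ind

/-!
Fuglede-Kadison determinants of block diagonal operators.
-/

open scoped InnerProductSpace Topology Matrix

noncomputable section

namespace Pool.Agent.R782

open Pool.Agent.Helper993.FK MeasureTheory ContinuousLinearMap

section abstract
variable {H K L : Type} [NormedAddCommGroup H] [InnerProductSpace ℂ H] [CompleteSpace H]
  [NormedAddCommGroup K] [InnerProductSpace ℂ K] [CompleteSpace K]
  [NormedAddCommGroup L] [InnerProductSpace ℂ L] [CompleteSpace L]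

/-- Traces along a contraction. -/
theorem inner_cfc (R : H →L[ℂ] K) (hR : ‖R‖ ≤ 1) (S : H →L[ℂ] H) (T : K →L[ℂ] K)
    (hS : IsSelfAdjoint S) (hT : IsSelfAdjoint T) (h : R ∘L S = T ∘L R) (f : ℝ → ℝ)
    (hf : Continuous f) (v : H) (w : K) (h1 : R v = w) (h2 : R.adjoint w = v) :
    ⟪v, cfc f S v⟫_ℂ = ⟪w, cfc f T w⟫_ℂ := by
  have e := congrArg (fun A : H →L[ℂ] K => A v)
    (Pool.Agent.Y692.FKI.intertwine_cfc R hR S T hS hT h f hf)
  simp only [comp_apply] at e
  rw [h1] at e
  nth_rw 1 [← h2]
  rw [adjoint_inner_left, e]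

instance regular_spectralMeasure {r : ℕ} (e : Fin r → H) (S : H →L[ℂ] H) :
    (spectralMeasure e S).Regular := by
  unfold spectralMeasure
  infer_instance

theorem regular_add (μ ν : Measure ℝ) [μ.Regular] [ν.Regular] : (μ + ν).Regular := by
  have : IsFiniteMeasureOnCompacts (μ + ν) := ⟨fun K hK => by
    rw [Measure.add_apply]
    exact ENNReal.add_lt_top.mpr ⟨hK.measure_lt_top, hK.measure_lt_top⟩⟩
  infer_instance

theorem spectralMeasure_split {r s t : ℕ} (e : Fin r → H) (e1 : Fin s → K) (e2 : Fin t → L)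
    (S : H →L[ℂ] H) (T : K →L[ℂ] K) (U : L →L[ℂ] L)
    (h : ∀ f : ℝ → ℝ, Continuous f → traceVal e S f = traceVal e1 T f + traceVal e2 U f) :
    spectralMeasure e S = spectralMeasure e1 T + spectralMeasure e2 U := by
  have := regular_add (spectralMeasure e1 T) (spectralMeasure e2 U)
  apply Measure.ext_of_integral_eq_on_compactlySupported
  intro f
  have i1 : Integrable f (spectralMeasure e1 T) :=
    f.continuous.integrable_of_hasCompactSupport f.hasCompactSupport
  have i2 : Integrable f (spectralMeasure e2 U) :=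
    f.continuous.integrable_of_hasCompactSupport f.hasCompactSupport
  rw [integral_add_measure i1 i2, integral_spectralMeasure, integral_spectralMeasure,
    integral_spectralMeasure]
  exact h f f.continuous

theorem detOf_split {H' K' L' : Type} [NormedAddCommGroup H'] [InnerProductSpace ℂ H']
    [CompleteSpace H'] [NormedAddCommGroup K'] [InnerProductSpace ℂ K'] [CompleteSpace K']
    [NormedAddCommGroup L'] [InnerProductSpace ℂ L'] [CompleteSpace L']
    {r s t : ℕ} (e : Fin r → H) (e1 : Fin s → K) (e2 : Fin t → L)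
    (F : H →L[ℂ] H') (F1 : K →L[ℂ] K') (F2 : L →L[ℂ] L')
    (h : specMeas e F = specMeas e1 F1 + specMeas e2 F2)
    (p1 : 0 < detOf e1 F1) (p2 : 0 < detOf e2 F2) :
    detOf e F = detOf e1 F1 * detOf e2 F2 := by
  unfold detOf at p1 p2 ⊢
  split_ifs at p1 with i1
  · split_ifs at p2 with i2
    · rw [if_pos i1, if_pos i2]
      have i : IntegrableOn Real.log (Set.Ioi 0) (specMeas e F) := by
        rw [h]
        exact i1.add_measure i2
      rw [if_pos i, ← Real.exp_add, h, Measure.restrict_add, integral_add_measure i1 i2]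
      congr 1
      ring
    · exact absurd p2 (lt_irrefl _)
  · exact absurd p1 (lt_irrefl _)

end abstract

section blocks
variable {G : Type} [Group G] {r s t : ℕ}

theorem coord_rMul_unitVec (A : Matrix (Fin r) (Fin s) (MonoidAlgebra ℚ G)) (i : Fin r) (j : Fin s)
    (h : G) : coord (rMul A (unitVec i)) j h = (((A i j).coeff h : ℚ) : ℂ) := by
  classical
  rw [rMul_apply, Finset.sum_eq_single i]
  · have h1 : ∀ g : G, coord (unitVec i : L2Pow G r) i (h * g⁻¹) = if g = h then 1 else 0 := by
      intro g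
      rw [coord_unitVec]
      have : (i = i ∧ h * g⁻¹ = 1) ↔ g = h := by
        rw [mul_inv_eq_one]
        exact ⟨fun e => e.2.symm, fun e => ⟨rfl, e.symm⟩⟩
      exact if_congr this rfl rfl
    simp_rw [h1]
    simp only [mul_ite, mul_one, mul_zero, Finset.sum_ite_eq']
    by_cases hg : h ∈ (A i j).coeff.support
    · rw [if_pos hg]
    · rw [if_neg hg]
      rw [Finsupp.notMem_support_iff] at hg
      rw [hg]; simp
  · intro i' _ hi'
    apply Finset.sum_eq_zero
    intro g _
    rw [coord_unitVec, if_neg (fun h => hi' h.1), mul_zero]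
  · simp

/-- the matrix of the restriction to some of the coordinates -/
def res (G : Type) [Group G] (e : Fin s → Fin r) : Matrix (Fin r) (Fin s) (MonoidAlgebra ℤ G) :=
  Matrix.of fun i j => if i = e j then 1 else 0

theorem res_apply (e : Fin s → Fin r) (i : Fin r) (j : Fin s) :
    res G e i j = if i = e j then 1 else 0 := rfl

theorem adjZ_res (e : Fin s → Fin r) (j : Fin s) (i : Fin r) :
    adjZ (res G e) j i = if i = e j then 1 else 0 := by
  unfold adjZ res
  simp only [Matrix.map_apply, Matrix.transpose_apply, Matrix.of_apply]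
  split_ifs
  · rw [MonoidAlgebra.one_def, MonoidAlgebra.mapDomain_single, inv_one]
  · exact MonoidAlgebra.mapDomain_zero _

theorem res_adjZ_mul {e : Fin s → Fin r} (he : Function.Injective e) :
    adjZ (res G e) * res G e = 1 := by
  ext1 i j
  rw [Matrix.mul_apply, Matrix.one_apply]
  have h : ∀ k, adjZ (res G e) i k * res G e k j = if k = e i then (if i = j then 1 else 0) else 0 := by
    intro k
    rw [adjZ_res, res_apply]
    by_cases h1 : k = e i
    · subst h1
      simp [he.eq_iff]
    · simp [h1]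
  rw [Finset.sum_congr rfl fun k _ => h k, Finset.sum_ite_eq', if_pos (Finset.mem_univ _)]

theorem toQ_one' : (1 : Matrix (Fin s) (Fin s) (MonoidAlgebra ℤ G)).map toQ = 1 := by
  have : (toQ : MonoidAlgebra ℤ G → MonoidAlgebra ℚ G)
    = MonoidAlgebra.mapRingHom G (Int.castRingHom ℚ) := rfl
  rw [this]
  exact Matrix.map_one _ (map_zero _) (map_one _)

/-- the operator of the restriction -/
def resOp (G : Type) [Group G] (e : Fin s → Fin r) : L2Pow G r →L[ℂ] L2Pow G s :=
  rMul ((res G e).map toQ)

theorem resOp_comp_adjoint {e : Fin s → Fin r} (he : Function.Injective e) :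
    resOp G e ∘L (resOp G e).adjoint = 1 := by
  unfold resOp
  rw [adjoint_rMul, ← toQ_adjZ, ← rMul_mul, ← toQ_mul, res_adjZ_mul he, toQ_one', rMul_one]

theorem norm_resOp {e : Fin s → Fin r} (he : Function.Injective e) : ‖resOp G e‖ ≤ 1 := by
  have h := ContinuousLinearMap.norm_adjoint_comp_self ((resOp G e).adjoint)
  rw [ContinuousLinearMap.adjoint_adjoint, resOp_comp_adjoint he,
    LinearIsometryEquiv.norm_map] at h
  have h1 : ‖(1 : L2Pow G s →L[ℂ] L2Pow G s)‖ ≤ 1 := ContinuousLinearMap.norm_id_le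
  have h2 := norm_nonneg (resOp G e)
  nlinarith

theorem resOp_adjoint_unitVec (e : Fin s → Fin r) (j : Fin s) :
    (resOp G e).adjoint (unitVec j) = unitVec (e j) := by
  classical
  unfold resOp
  rw [adjoint_rMul, ← toQ_adjZ]
  apply coord_ext
  intro i g
  rw [coord_rMul_unitVec, coord_unitVec, Matrix.map_apply, adjZ_res, toQ_coeff]
  by_cases h : i = e j
  · rw [if_pos h, MonoidAlgebra.one_def, MonoidAlgebra.coeff_single, Finsupp.single_apply]
    by_cases hg : g = 1
    · subst hg
      simp [h]
    · rw [if_neg (Ne.symm hg), if_neg (fun h => hg h.2)]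
      simp
  · rw [if_neg h, if_neg (fun h' => h h'.1)]
    simp

theorem resOp_unitVec {e : Fin s → Fin r} (he : Function.Injective e) (j : Fin s) :
    resOp G e (unitVec (e j)) = unitVec j := by
  rw [← resOp_adjoint_unitVec, ← ContinuousLinearMap.comp_apply, resOp_comp_adjoint he]
  rfl

theorem resOp_intertwine (e : Fin s → Fin r) (A : Matrix (Fin r) (Fin r) (MonoidAlgebra ℤ G))
    (B : Matrix (Fin s) (Fin s) (MonoidAlgebra ℤ G)) (h1 : A * res G e = res G e * B)
    (h2 : adjZ A * res G e = res G e * adjZ B) :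
    resOp G e ∘L ((rMul (A.map toQ)).adjoint ∘L rMul (A.map toQ))
      = ((rMul (B.map toQ)).adjoint ∘L rMul (B.map toQ)) ∘L resOp G e := by
  unfold resOp
  rw [adjoint_comp_rMul, adjoint_comp_rMul, ← toQ_adjZ, ← toQ_adjZ, ← toQ_mul, ← toQ_mul,
    ← rMul_mul, ← rMul_mul, ← toQ_mul, ← toQ_mul, Matrix.mul_assoc, h2, ← Matrix.mul_assoc, h1,
    Matrix.mul_assoc]

theorem isSelfAdjoint_adj_comp {H K : Type} [NormedAddCommGroup H] [InnerProductSpace ℂ H]
    [CompleteSpace H] [NormedAddCommGroup K] [InnerProductSpace ℂ K] [CompleteSpace K]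
    (f : H →L[ℂ] K) : IsSelfAdjoint (f.adjoint ∘L f) :=
  (ContinuousLinearMap.isPositive_adjoint_comp_self f).isSelfAdjoint

/-- The Fuglede-Kadison determinant of a block diagonal matrix. -/
theorem fkDet_block {e : Fin s → Fin r} {e' : Fin t → Fin r}
    (hb : Function.Bijective (Sum.elim e e')) (A : Matrix (Fin r) (Fin r) (MonoidAlgebra ℤ G))
    (B : Matrix (Fin s) (Fin s) (MonoidAlgebra ℤ G)) (C : Matrix (Fin t) (Fin t) (MonoidAlgebra ℤ G))
    (h1 : A * res G e = res G e * B) (h2 : adjZ A * res G e = res G e * adjZ B)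
    (h3 : A * res G e' = res G e' * C) (h4 : adjZ A * res G e' = res G e' * adjZ C)
    (p1 : 0 < fkDet (rMul (B.map toQ))) (p2 : 0 < fkDet (rMul (C.map toQ))) :
    fkDet (rMul (A.map toQ)) = fkDet (rMul (B.map toQ)) * fkDet (rMul (C.map toQ)) := by
  have he : Function.Injective e := fun a b h =>
    Sum.inl_injective (hb.1 (by simpa using h : Sum.elim e e' (Sum.inl a) = Sum.elim e e' (Sum.inl b)))
  have he' : Function.Injective e' := fun a b h =>
    Sum.inr_injective (hb.1 (by simpa using h : Sum.elim e e' (Sum.inr a) = Sum.elim e e' (Sum.inr b)))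
  refine detOf_split unitVec unitVec unitVec _ _ _ ?_ p1 p2
  unfold specMeas
  apply spectralMeasure_split
  intro f hf
  unfold traceVal
  rw [← (Equiv.ofBijective _ hb).sum_comp, Fintype.sum_sum_type]
  congr 1
  · apply Finset.sum_congr rfl
    intro j _
    have := inner_cfc (resOp G e) (norm_resOp he) _ _ (isSelfAdjoint_adj_comp (rMul (A.map toQ)))
      (isSelfAdjoint_adj_comp (rMul (B.map toQ))) (resOp_intertwine e A B h1 h2) f hf
      (unitVec (e j)) (unitVec j) (resOp_unitVec he j) (resOp_adjoint_unitVec e j)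
    exact congrArg Complex.re this
  · apply Finset.sum_congr rfl
    intro j _
    have := inner_cfc (resOp G e') (norm_resOp he') _ _ (isSelfAdjoint_adj_comp (rMul (A.map toQ)))
      (isSelfAdjoint_adj_comp (rMul (C.map toQ))) (resOp_intertwine e' A C h3 h4) f hf
      (unitVec (e' j)) (unitVec j) (resOp_unitVec he' j) (resOp_adjoint_unitVec e' j)
    exact congrArg Complex.re this

end blocks

end Pool.Agent.R782
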