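import Pool.Agent.R782.RootAvg
import Pool.Agent.TH630.Tor.Ev2
import Pool.Agent.TH73.TorJ1

/-!
Fuglede-Kadison determinants over finite quotients of a group with a homomorphism to `F × ℤ`, as
averages over the roots of unity.
-/

open scoped InnerProductSpace Topology Matrix

noncomputable section

namespace Pool.Agent.R782

open Pool.Agent.Helper993.FK Pool.Agent.Helper993.Delta Pool.Agent.TH630.Tor MeasureTheory

section
variable {G F : Type} [Group G] [Group F] [Fintype F] [DecidableEq F]
  (π : G →* F) (κ : G →* Multiplicative ℤ) {n : ℕ} (hn : 0 < n) (N : Subgroup G) [N.Normal]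
  (hN : ∀ g, g ∈ N ↔ π g = 1 ∧ (n : ℤ) ∣ Multiplicative.toAdd (κ g))

include hn hN in
theorem sum_trace_evz (a : MonoidAlgebra ℚ G) :
    ∑ z ∈ mu n, Matrix.trace (evz π κ (uz z) a : Matrix F F ℂ)
      = n * Fintype.card F *
        (((MonoidAlgebra.mapDomain (QuotientGroup.mk' N) a).coeff 1 : ℚ) : ℂ) := by
  classical
  induction a using MonoidAlgebra.induction_linear with
  | zero => simp
  | add a b h1 h2 =>
    have e : ∀ z : ℂ, Matrix.trace (evz π κ (uz z) (a + b) : Matrix F F ℂ)
        = Matrix.trace (evz π κ (uz z) a : Matrix F F ℂ)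
          + Matrix.trace (evz π κ (uz z) b : Matrix F F ℂ) := by
      intro z
      rw [map_add, Matrix.trace_add]
    simp_rw [e]
    rw [Finset.sum_add_distrib, h1, h2, MonoidAlgebra.mapDomain_add, MonoidAlgebra.coeff_add,
      Finsupp.add_apply]
    push_cast
    ring
  | single g c =>
    have e : ∀ z ∈ mu n, Matrix.trace (evz π κ (uz z) (MonoidAlgebra.single g c) : Matrix F F ℂ)
        = (if π g = 1 then (Fintype.card F : ℂ) * c else 0)
          * z ^ (Multiplicative.toAdd (κ g)) := by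
      intro z hz
      have hz0 : z ≠ 0 := by
        rintro rfl
        have := norm_of_mem_mu hn hz
        simp at this
      exact trace_evz_single π κ hz0 g c
    rw [Finset.sum_congr rfl e, ← Finset.mul_sum, sum_mu_zpow hn, MonoidAlgebra.mapDomain_single,
      MonoidAlgebra.coeff_single, Finsupp.single_apply]
    have h1 : (QuotientGroup.mk' N) g = 1 ↔ π g = 1 ∧ (n : ℤ) ∣ Multiplicative.toAdd (κ g) := by
      rw [← hN]
      exact QuotientGroup.eq_one_iff g
    by_cases h2 : π g = 1
    · by_cases h3 : (n : ℤ) ∣ Multiplicative.toAdd (κ g)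
      · rw [if_pos h2, if_pos h3, if_pos (h1.mpr ⟨h2, h3⟩)]
        ring
      · rw [if_neg h3, if_neg (fun h => h3 (h1.mp h).2)]
        simp
    · rw [if_neg h2, if_neg (fun h => h2 (h1.mp h).1)]
      simp

include hn hN in
theorem sum_trace_evM {r : ℕ} (S : Matrix (Fin r) (Fin r) (MonoidAlgebra ℚ G)) :
    ∑ z ∈ mu n, Matrix.trace (evM π κ (uz z) S : Matrix (Fin r × F) (Fin r × F) ℂ)
      = ((n * Fintype.card F * trc (mq N S) : ℝ) : ℂ) := by
  have h1 : ∀ z, Matrix.trace (evM π κ (uz z) S : Matrix (Fin r × F) (Fin r × F) ℂ)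
      = ∑ i, Matrix.trace (evz π κ (uz z) (S i i) : Matrix F F ℂ) := by
    intro z
    simp only [Matrix.trace, Matrix.diag_apply, evM, Matrix.of_apply, Fintype.sum_prod_type]
  simp_rw [h1]
  rw [Finset.sum_comm]
  simp_rw [sum_trace_evz π κ hn N hN]
  rw [← Finset.mul_sum, trc]
  push_cast
  rfl

include hn hN in
theorem sum_lam_pow' {r s : ℕ} (A : Matrix (Fin r) (Fin s) (MonoidAlgebra ℚ G)) (m : ℕ) :
    ∑ z ∈ mu n, ∑ j, (lam π κ A z j) ^ m
      = n * Fintype.card F * trc ((mq N (A * adjQ A)) ^ m) := by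
  have h1 : ∀ z ∈ mu n, ∑ j, (lam π κ A z j) ^ m =
      (Matrix.trace (evM π κ (uz z) ((A * adjQ A) ^ m) : Matrix (Fin r × F) (Fin r × F) ℂ)).re :=
    fun z hz => sum_lam_pow π κ A (norm_of_mem_mu hn hz) m
  rw [Finset.sum_congr rfl h1, ← Complex.re_sum, sum_trace_evM π κ hn N hN, Complex.ofReal_re,
    mq_pow]

include hn hN in
theorem sum_lam_poly {r s : ℕ} (A : Matrix (Fin r) (Fin s) (MonoidAlgebra ℚ G))
    (p : Polynomial ℝ) :
    ∑ z ∈ mu n, ∑ j, p.eval (lam π κ A z j)
      = n * Fintype.card F * traceVal unitVec (rMul (mq N (A * adjQ A))) (fun x => p.eval x) := by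
  have hS : 0 ≤ rMul (mq N (A * adjQ A)) := by
    rw [mq_mul, mq_adjQ]; exact rMul_self_nonneg _
  rw [traceVal_poly _ hS, Finset.mul_sum]
  have h1 : ∑ z ∈ mu n, ∑ j, p.eval (lam π κ A z j)
      = ∑ m ∈ Finset.range (p.natDegree + 1), p.coeff m *
        ∑ z ∈ mu n, ∑ j, (lam π κ A z j) ^ m := by
    simp only [Polynomial.eval_eq_sum_range]
    simp_rw [Finset.sum_comm (s := (Finset.univ : Finset (Fin r × F)))
      (t := Finset.range (p.natDegree + 1))]
    rw [Finset.sum_comm]
    apply Finset.sum_congr rfl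
    intro m _
    rw [Finset.mul_sum]
    apply Finset.sum_congr rfl
    intro z _
    rw [Finset.mul_sum]
  rw [h1]
  apply Finset.sum_congr rfl
  intro m _
  rw [sum_lam_pow' π κ hn N hN]
  ring

include hn hN in
/-- The spectral sum over the finite quotient, for every function. -/
theorem sum_lam_fun [Finite (G ⧸ N)] {r s : ℕ} [NeZero r]
    (A : Matrix (Fin r) (Fin s) (MonoidAlgebra ℤ G)) (h : ℝ → ℝ) :
    ∑ z ∈ mu n, ∑ j, h (lam π κ (A.map toQ) z j)
      = n * Fintype.card F * traceVal unitVec (rMul (mq N ((A * adjZ A).map toQ))) h := by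
  classical
  have : Fintype (G ⧸ N) := Fintype.ofFinite _
  have hS : 0 ≤ rMul (mq N ((A * adjZ A).map toQ)) := by
    rw [mul_adjZ_toQ, mq_mul, mq_adjQ]; exact rMul_self_nonneg _
  have hS' := hS
  rw [mq_toQ] at hS'
  obtain ⟨k, lm, -, -, -, -, h4, -⟩ := fin_package _ hS'
  rw [← mq_toQ] at h4
  -- the interpolating polynomial
  set T : Finset ℝ := Finset.univ.image lm
    ∪ (mu n ×ˢ (Finset.univ : Finset (Fin r × F))).image fun x => lam π κ (A.map toQ) x.1 x.2
    with hT
  set p := Lagrange.interpolate T id h with hp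
  have hpe : ∀ x ∈ T, p.eval x = h x := fun x hx =>
    Lagrange.eval_interpolate_at_node (s := T) (v := id) h (Set.injOn_id _) hx
  have e1 : ∑ z ∈ mu n, ∑ j, h (lam π κ (A.map toQ) z j)
      = ∑ z ∈ mu n, ∑ j, p.eval (lam π κ (A.map toQ) z j) := by
    apply Finset.sum_congr rfl
    intro z hz
    apply Finset.sum_congr rfl
    intro j _
    rw [hpe]
    rw [hT, Finset.mem_union]
    right
    exact Finset.mem_image.mpr ⟨(z, j), Finset.mem_product.mpr ⟨hz, Finset.mem_univ _⟩, rfl⟩
  have e2 : traceVal unitVec (rMul (mq N ((A * adjZ A).map toQ))) h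
      = traceVal unitVec (rMul (mq N ((A * adjZ A).map toQ))) (fun x => p.eval x) := by
    rw [h4, h4]
    apply Finset.sum_congr rfl
    intro i _
    rw [hpe]
    rw [hT, Finset.mem_union]
    left
    exact Finset.mem_image.mpr ⟨i, Finset.mem_univ _, rfl⟩
  rw [e1, e2, sum_lam_poly π κ hn N hN, mul_adjZ_toQ]

/-- The logarithm of the determinant over a finite group is the spectral trace of the
logarithm (which is zero at zero). -/
theorem log_fkDet_traceVal {Q : Type} [Group Q] [Finite Q] {r s : ℕ} [NeZero r]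
    (A : Matrix (Fin r) (Fin s) (MonoidAlgebra ℤ Q)) :
    Real.log (fkDet (rMul (A.map toQ)))
      = 1 / 2 * traceVal unitVec (rMul ((A * adjZ A).map toQ)) Real.log := by
  classical
  have := Fintype.ofFinite Q
  have hS : 0 ≤ rMul ((A * adjZ A).map toQ) := by
    rw [mul_adjZ_toQ]; exact rMul_self_nonneg _
  obtain ⟨k, lm, -, hlm, -, -, h, -⟩ := fin_package _ hS
  have h1 : spectralMeasure unitVec (rMul ((A * adjZ A).map toQ))
      = atomic (1 / (Fintype.card Q : ℝ)) lm := by
    unfold spectralMeasure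
    apply MeasureTheory.Measure.ext_of_integral_eq_on_compactlySupported
    intro f
    rw [RealRMK.integral_rieszMeasure]
    refine Eq.trans ?_ ((integral_atomic (by positivity) _ f).2).symm
    exact h f
  have h0 : specMeas unitVec (rMul (A.map toQ)) = atomic (1 / (Fintype.card Q : ℝ)) lm := by
    unfold specMeas
    rw [adjoint_comp_rMul, ← mul_adjZ_toQ, h1]
  have h2 : MeasureTheory.IntegrableOn Real.log (Set.Ioi 0)
      (specMeas unitVec (rMul (A.map toQ))) := by
    rw [h0]
    exact (integral_atomic (by positivity) _ _).1.integrableOn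
  have h3 : ∫ x in Set.Ioi (0 : ℝ), Real.log x ∂(specMeas unitVec (rMul (A.map toQ)))
      = ∑ i, (1 / (Fintype.card Q : ℝ)) * Real.log (lm i) := by
    rw [h0, ← integral_indicator measurableSet_Ioi, (integral_atomic (by positivity) _ _).2]
    apply Finset.sum_congr rfl
    intro i _
    by_cases hi : lm i = 0
    · rw [hi]
      simp
    · rw [Set.indicator_of_mem (Set.mem_Ioi.mpr (lt_of_le_of_ne (hlm i) (Ne.symm hi)))]
  unfold fkDet detOf
  rw [if_pos h2, Real.log_exp, h3, h]

theorem mq_map_rect {r s : ℕ} (A : Matrix (Fin r) (Fin s) (MonoidAlgebra ℤ G)) :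
    mq N ((A * adjZ A).map toQ)
      = ((A.map (MonoidAlgebra.mapDomainRingHom ℤ (QuotientGroup.mk' N)))
        * adjZ (A.map (MonoidAlgebra.mapDomainRingHom ℤ (QuotientGroup.mk' N)))).map toQ := by
  rw [mq_toQ, ← mapDomain_adjZ, ← Matrix.map_mul]
  rfl

include hn hN in
/-- The determinant over the finite quotient as an average over the roots of unity. -/
theorem log_fkDet_quot [Finite (G ⧸ N)] {r s : ℕ} [NeZero r]
    (A : Matrix (Fin r) (Fin s) (MonoidAlgebra ℤ G)) :
    Real.log (fkDet (rMul ((A.map (MonoidAlgebra.mapDomainRingHom ℤ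
      (QuotientGroup.mk' N))).map toQ)))
      = 1 / 2 * (1 / (Fintype.card F : ℝ)) *
        (1 / (n : ℝ) * ∑ z ∈ mu n, ∑ j, Real.log (lam π κ (A.map toQ) z j)) := by
  have hn' : (n : ℝ) ≠ 0 := by exact_mod_cast hn.ne'
  have hF : (Fintype.card F : ℝ) ≠ 0 := by
    have : 0 < Fintype.card F := Fintype.card_pos_iff.mpr ⟨1⟩
    exact_mod_cast this.ne'
  rw [sum_lam_fun π κ hn N hN, log_fkDet_traceVal, mq_map_rect]
  field_simp

end

end Pool.Agent.R782
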