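import Pool.Agent.R782.FinAvg

/-!
Torsions over suitable finite quotients `F × ℤ / n` are close to the torsion over `F × ℤ`.
-/

open scoped InnerProductSpace Topology Matrix

noncomputable section

namespace Pool.Agent.R782

open Pool.Agent.Helper993.FK Pool.Agent.Helper993.Delta Pool.Agent.TH630.Tor MeasureTheory

theorem log_fkDet_zero {Q : Type} [Group Q] {r s : ℕ} (hr : r = 0)
    (f : L2Pow Q r →L[ℂ] L2Pow Q s) : Real.log (fkDet f) = 0 := by
  subst hr
  have h1 : specMeas unitVec f = 0 := by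
    unfold specMeas spectralMeasure
    apply MeasureTheory.Measure.ext_of_integral_eq_on_compactlySupported
    intro g
    rw [RealRMK.integral_rieszMeasure]
    have h2 : traceFunctional unitVec (ContinuousLinearMap.adjoint f ∘SL f) g
        = ∑ i : Fin 0, (⟪(unitVec : Fin 0 → L2Pow Q 0) i,
          cfc (g : ℝ → ℝ) (ContinuousLinearMap.adjoint f ∘SL f)
            ((unitVec : Fin 0 → L2Pow Q 0) i)⟫_ℂ).re := rfl
    rw [h2]
    simp
  unfold fkDet detOf
  rw [h1]
  have h3 : IntegrableOn Real.log (Set.Ioi 0) (0 : Measure ℝ) := by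
    unfold IntegrableOn
    rw [Measure.restrict_zero]
    exact integrable_zero_measure
  rw [if_pos h3]
  simp

section
variable {G F : Type} [Group G] [Group F] [Fintype F] [DecidableEq F]
  (π : G →* F) (κ : G →* Multiplicative ℤ)

theorem logDet_mul_adj {r : ℕ} (A : Matrix (Fin r) (Fin r) (MonoidAlgebra ℤ G)) :
    logDet π κ (A * adjZ A) = 2 * logDet π κ A := by
  unfold logDet
  have h1 : Real.circleAverage (fun z => Real.log ‖(evM π κ (uz z) ((A * adjZ A).map toQ) :
        Matrix (Fin r × F) (Fin r × F) ℂ).det‖) 0 1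
      = Real.circleAverage (fun z => (2 : ℝ) • Real.log ‖(evM π κ (uz z) (A.map toQ) :
        Matrix (Fin r × F) (Fin r × F) ℂ).det‖) 0 1 := by
    apply Real.circleAverage_congr_sphere
    intro z hz
    have hz1 : ‖z‖ = 1 := by simpa using hz
    simp only
    rw [det_mul_adj π κ hz1, Real.log_pow]
    simp
  rw [h1, Real.circleAverage_fun_smul, smul_eq_mul]
  ring

/-- The logarithmic determinants over the finite quotients. -/
theorem det_close {r : ℕ} (A : Matrix (Fin r) (Fin r) (MonoidAlgebra ℤ G)) (hA : Nondeg π κ A) :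
    ∃ (R : Finset ℂ) (D K : ℝ), 0 ≤ D ∧ 0 ≤ K ∧ ∀ n : ℕ, 0 < n → ∀ (N : Subgroup G) [N.Normal],
      (∀ g, g ∈ N ↔ π g = 1 ∧ (n : ℤ) ∣ Multiplicative.toAdd (κ g)) → Finite (G ⧸ N) →
      ∀ ε : ℝ, (∀ α ∈ R, Good ε n α) →
        |Real.log (fkDet (rMul ((A.map (MonoidAlgebra.mapDomainRingHom ℤ
          (QuotientGroup.mk' N))).map toQ))) - logDet π κ A| ≤ D * ε + K / n := by
  classical
  rcases Nat.eq_zero_or_pos r with hr | hr
  · refine ⟨∅, 0, 0, le_rfl, le_rfl, fun n hn N _ _ _ ε _ => ?_⟩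
    have h1 : logDet π κ A = 0 := by
      subst hr
      unfold logDet
      have : IsEmpty (Fin 0 × F) := inferInstance
      simp [Matrix.det_isEmpty, Real.circleAverage_const]
    rw [log_fkDet_zero hr, h1]
    simp
  · have : NeZero r := ⟨hr.ne'⟩
    obtain ⟨p, hp0, hp, h1, -⟩ := exists_poly' π κ (nondeg_mul_adj π κ hA)
    set P := p.map (Int.castRingHom ℂ) with hP
    have hP0 : P ≠ 0 := by
      rw [hP]
      exact (Polynomial.map_ne_zero_iff (RingHom.injective_int _)).mpr hp0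
    set f : ℂ → ℝ := fun z => ∑ j, Real.log (lam π κ (A.map toQ) z j) with hf
    have hfP : ∀ z, ‖z‖ = 1 → P.eval z ≠ 0 → f z = Real.log ‖P.eval z‖ := by
      intro z hz hPz
      have h2 : ∏ j, lam π κ (A.map toQ) z j = ‖P.eval z‖ := by
        rw [prod_lam π κ (A.map toQ) hz, ← hp z hz, mul_adjZ_toQ]
      have h3 : ∀ j ∈ (Finset.univ : Finset (Fin r × F)), lam π κ (A.map toQ) z j ≠ 0 := by
        intro j _ h0
        apply hPz
        rw [← norm_eq_zero, ← h2]
        exact Finset.prod_eq_zero (Finset.mem_univ j) h0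
      rw [hf, ← h2, Real.log_prod h3]
    obtain ⟨K, hK, hclose⟩ := avg_close P hP0 f hfP
    have hF : 0 < Fintype.card F := Fintype.card_pos_iff.mpr ⟨1⟩
    refine ⟨P.roots.toFinset, 1 / 2 * (1 / (Fintype.card F : ℝ)) * P.roots.card,
      1 / 2 * (1 / (Fintype.card F : ℝ)) * K, by positivity, by positivity,
      fun n hn N _ hN hfin ε hgood => ?_⟩
    have h4 := hclose n hn ε hgood
    rw [log_fkDet_quot π κ hn N hN A]
    have h5 : logDet π κ A = 1 / 2 * (1 / (Fintype.card F : ℝ)) * P.logMahlerMeasure := by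
      have := logDet_mul_adj π κ A
      rw [h1] at this
      linarith
    rw [h5, ← mul_sub, abs_mul, abs_of_nonneg (by positivity : (0 : ℝ) ≤ 1 / 2 * (1 / (Fintype.card F : ℝ)))]
    refine (mul_le_mul_of_nonneg_left h4 (by positivity)).trans (le_of_eq ?_)
    ring

/-- The torsions over the finite quotients. -/
theorem torsion_close (C : FreeCx G) (h : ∀ k, Nondeg π κ (C.lapM k)) :
    ∃ (R : Finset ℂ) (D K : ℝ), 0 ≤ D ∧ 0 ≤ K ∧ ∀ n : ℕ, 0 < n → ∀ (N : Subgroup G) [N.Normal],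
      (∀ g, g ∈ N ↔ π g = 1 ∧ (n : ℤ) ∣ Multiplicative.toAdd (κ g)) → Finite (G ⧸ N) →
      ∀ ε : ℝ, (∀ α ∈ R, Good ε n α) →
        |(C.quot N).l2torsion - (-(1 / 2) * ∑ k ∈ Finset.range (C.dim + 1),
          (-1) ^ k * k * logDet π κ (C.lapM k))| ≤ D * ε + K / n := by
  classical
  choose R D K hD hK hclose using fun k => det_close π κ (C.lapM k) (h k)
  refine ⟨(Finset.range (C.dim + 1)).biUnion R,
    1 / 2 * ∑ k ∈ Finset.range (C.dim + 1), k * D k, 1 / 2 * ∑ k ∈ Finset.range (C.dim + 1), k * K k,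
    ?_, ?_, fun n hn N _ hN hfin ε hgood => ?_⟩
  · have : 0 ≤ ∑ k ∈ Finset.range (C.dim + 1), (k : ℝ) * D k :=
      Finset.sum_nonneg fun k _ => mul_nonneg (Nat.cast_nonneg k) (hD k)
    positivity
  · have : 0 ≤ ∑ k ∈ Finset.range (C.dim + 1), (k : ℝ) * K k :=
      Finset.sum_nonneg fun k _ => mul_nonneg (Nat.cast_nonneg k) (hK k)
    positivity
  · have e : (C.quot N).l2torsion = -(1 / 2) * ∑ k ∈ Finset.range (C.dim + 1),
        (-1) ^ k * k * Real.log (fkDet ((C.quot N).laplacian k)) := rfl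
    rw [e, ← mul_sub, ← Finset.sum_sub_distrib, abs_mul]
    have e2 : |-(1 / 2 : ℝ)| = 1 / 2 := by norm_num
    rw [e2]
    have h1 : |∑ k ∈ Finset.range (C.dim + 1), ((-1) ^ k * k * Real.log (fkDet
          ((C.quot N).laplacian k)) - (-1) ^ k * k * logDet π κ (C.lapM k))|
        ≤ ∑ k ∈ Finset.range (C.dim + 1), (k : ℝ) * (D k * ε + K k / n) := by
      refine (Finset.abs_sum_le_sum_abs _ _).trans (Finset.sum_le_sum fun k hk => ?_)
      rw [← mul_sub, abs_mul, abs_mul, abs_pow, abs_neg, abs_one, one_pow, one_mul, Nat.abs_cast]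
      apply mul_le_mul_of_nonneg_left _ (Nat.cast_nonneg k)
      have h2 := hclose k n hn N hN hfin ε fun α hα =>
        hgood α (Finset.mem_biUnion.mpr ⟨k, hk, hα⟩)
      have h3 : (C.quot N).laplacian k = rMul (((C.lapM k).map (MonoidAlgebra.mapDomainRingHom ℤ
          (QuotientGroup.mk' N))).map toQ) := by
        rw [FreeCx.laplacian_eq, FreeCx.quot_lapM]
        rfl
      rw [h3]
      exact h2
    refine (mul_le_mul_of_nonneg_left h1 (by norm_num)).trans (le_of_eq ?_)
    rw [Finset.mul_sum, Finset.mul_sum, Finset.mul_sum, Finset.sum_mul, Finset.sum_div,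
      ← Finset.sum_add_distrib]
    apply Finset.sum_congr rfl
    intro k _
    ring

/-- For suitable arbitrarily large multiples of a given number the torsion over the finite
quotient is as close as we please. -/
theorem exists_close (C : FreeCx G) (h : ∀ k, Nondeg π κ (C.lapM k)) {m : ℕ} (hm : 0 < m) (n0 : ℕ)
    {δ : ℝ} (hδ : 0 < δ) :
    ∃ n : ℕ, n0 ≤ n ∧ m ∣ n ∧ 0 < n ∧ ∀ (N : Subgroup G) [N.Normal],
      (∀ g, g ∈ N ↔ π g = 1 ∧ (n : ℤ) ∣ Multiplicative.toAdd (κ g)) → Finite (G ⧸ N) →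
        |(C.quot N).l2torsion - (-(1 / 2) * ∑ k ∈ Finset.range (C.dim + 1),
          (-1) ^ k * k * logDet π κ (C.lapM k))| ≤ δ := by
  obtain ⟨R, D, K, hD, hK, hclose⟩ := torsion_close π κ C h
  obtain ⟨n1, hn1⟩ := exists_nat_gt (2 * K / δ)
  have hε : 0 < δ / (2 * (D + 1)) := by positivity
  obtain ⟨n, hn, hmn, hn0, hgood⟩ := exists_good R hm (n0 + n1) hε
  refine ⟨n, by omega, hmn, hn0, fun N _ hN hfin => ?_⟩
  refine (hclose n hn0 N hN hfin _ hgood).trans ?_
  have hn' : (0 : ℝ) < n := by exact_mod_cast hn0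
  have h1 : D * (δ / (2 * (D + 1))) ≤ δ / 2 := by
    rw [mul_div_assoc', div_le_div_iff₀ (by positivity) (by positivity)]
    nlinarith
  have h2 : K / n ≤ δ / 2 := by
    have h3 : 2 * K / δ < n := hn1.trans_le (by exact_mod_cast (by omega : n1 ≤ n))
    rw [div_lt_iff₀ hδ] at h3
    rw [div_le_div_iff₀ hn' (by positivity)]
    linarith
  linarith

end

end Pool.Agent.R782
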