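import Pool.Agent.R782.HeisPres
import Pool.Agent.R782.Block
import Pool.Agent.Helper993.Compare

/-!
Two finite `3`-dimensional complexes with fundamental group the discrete Heisenberg group.
-/

open scoped Matrix InnerProductSpace

noncomputable section

namespace Pool.Agent.R782

open Pool.Agent.Helper993.HeisDet Pool.Agent.Helper993.Cpx Pool.Agent.TH630.Tor
  Pool.Agent.Helper993.SP Pool.Agent.Helper993.FK Pool.Agent.Helper993.Delta

/-- the Fox derivatives of a word, as a sparse row -/
def foxRow {m : ℕ} {H : Type} [Group H] (lab : Fin m → H) : H → List (Fin m × Bool) → Row m H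
  | _, [] => []
  | p, (y, true) :: w => (y, 1, p) :: foxRow lab (p * lab y) w
  | p, (y, false) :: w => (y, -1, p * (lab y)⁻¹) :: foxRow lab (p * (lab y)⁻¹) w

theorem ev_foxRow {m : ℕ} {H : Type} [Group H] (lab : Fin m → H) (x : Fin m) :
    ∀ (p : H) (w : List (Fin m × Bool)),
      ev (foxRow lab p w) x = MonoidAlgebra.single p 1 * foxWord lab x w
  | p, [] => by simp [foxRow, foxWord, ev]
  | p, (y, true) :: w => by
    rw [foxRow, ev_cons, ev_foxRow lab x, foxWord, mul_add, ← mul_assoc, single_mul_single1]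
    congr 1
    split_ifs
    · rw [mul_one]
    · rw [mul_zero]
  | p, (y, false) :: w => by
    rw [foxRow, ev_cons, ev_foxRow lab x, foxWord, mul_add, ← mul_assoc, single_mul_single1]
    congr 1
    split_ifs
    · rw [mul_neg, single_mul_single1]
      simp
    · rw [mul_zero]

/-- the relators as words -/
def hword : Fin 4 → List (Fin 3 × Bool) :=
  ![[(0, true), (1, true), (0, false), (1, false), (2, false)],
    [(0, true), (2, true), (0, false), (2, false)],
    [(1, true), (2, true), (1, false), (2, false)], []]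

theorem hrel_eq (j : Fin 4) : hrel j = FreeGroup.mk (hword j) := by
  fin_cases j <;> rfl

/-- the sparse rows of the second boundary matrix -/
def B2 (j : Fin 4) : Row 3 (Heis ℤ) := foxRow hgen 1 (hword j)

/-- the sparse rows of the first boundary matrix -/
def B1 (i : Fin 3) : Row 1 (Heis ℤ) := [(0, 1, hgen i), (0, -1, 1)]

theorem b1_entry (i : Fin 3) (j : Fin 1) :
    (MonoidAlgebra.single (hφ (FreeGroup.of i)) 1 - 1 : MonoidAlgebra ℤ (Heis ℤ)) = toM B1 i j := by
  have hj : (0 : Fin 1) = j := Subsingleton.elim _ _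
  change _ = ev (B1 i) j
  unfold B1 ev
  simp only [List.map_cons, List.map_nil, List.sum_cons, List.sum_nil, add_zero, if_pos hj]
  rw [hφ_of, MonoidAlgebra.one_def, sub_eq_add_neg]
  simp

theorem b1_eq : hpres.b1 = toM B1 := by
  ext1 i j
  exact b1_entry i j

theorem b2_entry (j : Fin 4) (i : Fin 3) : fox hφ i (hrel j) = toM B2 j i := by
  change _ = ev (B2 j) i
  rw [hrel_eq, fox_mk]
  unfold B2
  rw [ev_foxRow, single_one1, one_mul]
  congr 1
  funext y
  exact hφ_of y

theorem b2_eq : hpres.b2 = toM B2 := by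
  ext1 j i
  exact b2_entry j i

/-- the sparse row of the group ring element -/
def fR : Bool → Row 4 (Heis ℤ)
  | true => [(3, 1, 1), (3, 10, ⟨1, 0, 0⟩), (3, -10, ⟨1, 1, 0⟩)]
  | false => [(3, 1, 1)]

/-- the sparse rows of the third boundary matrix -/
def B3 (b : Bool) : Fin 2 → Row 4 (Heis ℤ) :=
  ![[(0, 1, ⟨0, 0, 1⟩), (0, -1, 1), (1, 1, 1), (1, -1, ⟨0, 1, 1⟩), (2, 1, ⟨1, 0, 0⟩),
    (2, -1, ⟨0, 0, 1⟩)], fR b]

theorem B3_B2 (b : Bool) : toM (B3 b) * toM B2 = 0 := by
  have h : (0 : Matrix (Fin 2) (Fin 3) (MonoidAlgebra ℤ (Heis ℤ))) = toM (fun _ => []) := by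
    ext1 i j
    rfl
  rw [toM_mul, h]
  apply toM_eq
  cases b <;> decide +kernel

/-- The two complexes: the `2`-skeleton is the presentation complex, the first `3`-cell is that of
the Heisenberg nilmanifold, the second `3`-cell is attached to the `2`-sphere of the trivial relator
by the group ring element `1 + 10 t - 10 u t`, or by `1`. -/
def hcx (b : Bool) : ThreeCx (Heis ℤ) where
  toPres := hpres
  l := 2
  b3 := toM (B3 b)
  b3_mul_b2 := by
    rw [b2_eq]
    exact B3_B2 b

end Pool.Agent.R782
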