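import Pool.Agent.Helper993.Pi1
import Pool.Agent.TH630.Tor.TorusDef

/-!
A presentation of the discrete Heisenberg group with three generators and four relators, the last
of which is trivial.
-/

noncomputable section

namespace Pool.Agent.R782

open Pool.Agent.Helper993.HeisDet Pool.Agent.Helper993.Cpx Pool.Agent.TH630.Tor

/-- the generators -/
def hgen : Fin 3 → Heis ℤ := ![⟨1, 0, 0⟩, ⟨0, 1, 0⟩, ⟨0, 0, 1⟩]

/-- the homomorphism from the free group -/
def hφ : FreeGroup (Fin 3) →* Heis ℤ := FreeGroup.lift hgen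

theorem hφ_of (i : Fin 3) : hφ (FreeGroup.of i) = hgen i := FreeGroup.lift_apply_of

/-- the relators `x y x⁻¹ y⁻¹ z⁻¹`, `x z x⁻¹ z⁻¹`, `y z y⁻¹ z⁻¹` and `1` -/
def hrel : Fin 4 → FreeGroup (Fin 3) :=
  ![comm (FreeGroup.of 0) (FreeGroup.of 1) * (FreeGroup.of 2)⁻¹,
    comm (FreeGroup.of 0) (FreeGroup.of 2), comm (FreeGroup.of 1) (FreeGroup.of 2), 1]

theorem hφ_rel (j : Fin 4) : hφ (hrel j) = 1 := by
  fin_cases j
  · simp only [hrel, Pool.Agent.TH630.Tor.comm]
    simp [hφ_of, hgen]
    ext <;> simp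
  · simp only [hrel, Pool.Agent.TH630.Tor.comm]
    simp [hφ_of, hgen]
    ext <;> simp
  · simp only [hrel, Pool.Agent.TH630.Tor.comm]
    simp [hφ_of, hgen]
    ext <;> simp
  · simp [hrel]

theorem hφ_surj : Function.Surjective hφ := by
  intro g
  refine ⟨FreeGroup.of 2 ^ g.c * FreeGroup.of 1 ^ g.b * FreeGroup.of 0 ^ g.a, ?_⟩
  rw [map_mul, map_mul, map_zpow, map_zpow, map_zpow, hφ_of, hφ_of, hφ_of]
  simp only [hgen, Matrix.cons_val_zero, Matrix.cons_val_one, Matrix.cons_val]
  rw [zpow_x, zpow_y, zpow_z]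
  ext <;> simp

section
variable {Γ : Type} [Group Γ] {x y z : Γ} (hxz : Commute x z) (hyz : Commute y z)
  (hxy : x * y = z * (y * x))

/-- the homomorphism from the Heisenberg group -/
def hback : Heis ℤ →* Γ where
  toFun g := z ^ g.c * y ^ g.b * x ^ g.a
  map_one' := by simp
  map_mul' g h := by
    rw [Heis.mul_a, Heis.mul_b, Heis.mul_c, zpow_add, zpow_add, zpow_add, zpow_add]
    exact rearrange (hxz.zpow_zpow _ _) (hyz.zpow_zpow _ _)
      (hyz.zpow_zpow _ _) (comm_aux hxz hyz hxy g.a h.b)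

end

theorem hφ_ker : hφ.ker = Subgroup.normalClosure (Set.range hrel) := by
  apply le_antisymm
  · set N := Subgroup.normalClosure (Set.range hrel) with hN
    let q : FreeGroup (Fin 3) →* FreeGroup (Fin 3) ⧸ N := QuotientGroup.mk' N
    have hr : ∀ j, q (hrel j) = 1 := fun j =>
      (QuotientGroup.eq_one_iff _).mpr (Subgroup.subset_normalClosure ⟨j, rfl⟩)
    have hcomm : ∀ {a b : FreeGroup (Fin 3) ⧸ N}, a * b * a⁻¹ * b⁻¹ = 1 → Commute a b := by
      intro a b h
      unfold Commute SemiconjBy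
      rw [mul_inv_eq_one, mul_inv_eq_iff_eq_mul] at h
      exact h
    have h1 : Commute (q (FreeGroup.of 0)) (q (FreeGroup.of 2)) := by
      apply hcomm
      have := hr 1
      simpa [hrel, Pool.Agent.TH630.Tor.comm] using this
    have h2 : Commute (q (FreeGroup.of 1)) (q (FreeGroup.of 2)) := by
      apply hcomm
      have := hr 2
      simpa [hrel, Pool.Agent.TH630.Tor.comm] using this
    have h3 : q (FreeGroup.of 0) * q (FreeGroup.of 1)
        = q (FreeGroup.of 2) * (q (FreeGroup.of 1) * q (FreeGroup.of 0)) := by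
      have := hr 0
      simp only [hrel, Pool.Agent.TH630.Tor.comm, Matrix.cons_val_zero, map_mul, map_inv] at this
      rw [mul_inv_eq_one, mul_inv_eq_iff_eq_mul, mul_inv_eq_iff_eq_mul] at this
      rw [this, mul_assoc]
    have h4 : (hback h1 h2 h3).comp hφ = q := by
      apply FreeGroup.ext_hom
      intro i
      rw [MonoidHom.comp_apply, hφ_of]
      fin_cases i <;> simp [hback, hgen]
    intro g hg
    have h5 : q g = 1 := by
      rw [← h4, MonoidHom.comp_apply, hg, map_one]
    exact (QuotientGroup.eq_one_iff _).mp h5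
  · apply Subgroup.normalClosure_le_normal
    rintro _ ⟨j, rfl⟩
    exact hφ_rel j

/-- the presentation -/
def hpres : Pres (Heis ℤ) where
  m := 3
  k := 4
  rel := hrel
  φ := hφ
  φ_rel := hφ_rel

end Pool.Agent.R782
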