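import Pool.Agent.R782.Acyc

/-!
The torsions of the finite coverings of the two closed `7`-manifolds.
-/

open scoped Matrix InnerProductSpace Topology

noncomputable section

namespace Pool.Agent.R782

open Pool.Agent.Helper993.HeisDet Pool.Agent.Helper993.Cpx Pool.Agent.TH630.Tor
  Pool.Agent.Helper993.SP Pool.Agent.Helper993.FK Pool.Agent.Helper993.Delta ContinuousLinearMap
  Pool.Agent.Helper993.LT

section blocks
variable {G : Type} [Group G] {p q r s t u : ℕ}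

theorem adjZ_add' (A B : Matrix (Fin r) (Fin s) (MonoidAlgebra ℤ G)) :
    adjZ (A + B) = adjZ A + adjZ B := by
  ext1 i j
  rw [Matrix.add_apply, adjZ_apply, adjZ_apply, adjZ_apply, Matrix.add_apply, invZ_add]

theorem res_disjoint {e : Fin s → Fin r} {e' : Fin t → Fin r} (h : ∀ i j, e i ≠ e' j) :
    adjZ (res G e) * res G e' = 0 := by
  ext1 i j
  rw [Matrix.mul_apply, Matrix.zero_apply]
  apply Finset.sum_eq_zero
  intro k _
  rw [adjZ_res, res_apply]
  by_cases h1 : k = e i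
  · rw [if_neg (fun h2 => h i j (h1.symm.trans h2)), mul_zero]
  · rw [if_neg h1, zero_mul]

/-- the two blocks of the Laplacian in degree two -/
theorem lap_two_block {e : Fin s → Fin r} {e' : Fin t → Fin r} {e0 : Fin p → Fin q}
    {e1 : Fin u → Fin q} (he : Function.Injective e) (hd : ∀ i j, e i ≠ e' j) {m : ℕ}
    {b2 : Matrix (Fin r) (Fin m) (MonoidAlgebra ℤ G)} {b3 : Matrix (Fin q) (Fin r) (MonoidAlgebra ℤ G)}
    {c : Matrix (Fin p) (Fin s) (MonoidAlgebra ℤ G)} {d : Matrix (Fin s) (Fin m) (MonoidAlgebra ℤ G)}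
    {F : Matrix (Fin u) (Fin t) (MonoidAlgebra ℤ G)}
    (ha : b3 * res G e = res G e0 * c) (hb : b3 * res G e' = res G e1 * F)
    (ha' : adjZ (res G e0) * b3 = c * adjZ (res G e))
    (hb' : adjZ (res G e1) * b3 = F * adjZ (res G e')) (hc : b2 = res G e * d) :
    (adjZ b3 * b3 + b2 * adjZ b2) * res G e = res G e * (adjZ c * c + d * adjZ d) ∧
    (adjZ b3 * b3 + b2 * adjZ b2) * res G e' = res G e' * (adjZ F * F) := by
  have ha2 : adjZ b3 * res G e0 = res G e * adjZ c := by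
    have := congrArg adjZ ha'
    rw [adjZ_mul, adjZ_mul, adjZ_adjZ, adjZ_adjZ] at this
    exact this
  have hb2 : adjZ b3 * res G e1 = res G e' * adjZ F := by
    have := congrArg adjZ hb'
    rw [adjZ_mul, adjZ_mul, adjZ_adjZ, adjZ_adjZ] at this
    exact this
  constructor
  · rw [Matrix.add_mul, Matrix.mul_assoc, ha, ← Matrix.mul_assoc, ha2, hc, adjZ_mul,
      Matrix.mul_assoc, Matrix.mul_assoc, Matrix.mul_assoc, Matrix.mul_assoc, res_adjZ_mul he,
      Matrix.mul_one, ← Matrix.mul_add]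
  · rw [Matrix.add_mul, Matrix.mul_assoc, hb, ← Matrix.mul_assoc, hb2, hc, adjZ_mul,
      Matrix.mul_assoc, Matrix.mul_assoc, Matrix.mul_assoc, Matrix.mul_assoc, res_disjoint hd,
      Matrix.mul_zero, Matrix.mul_zero, Matrix.mul_zero, add_zero]

/-- the two blocks of the Laplacian in degree three -/
theorem lap_three_block {e : Fin s → Fin r} {e' : Fin t → Fin r} {e0 : Fin p → Fin q}
    {e1 : Fin u → Fin q} {b3 : Matrix (Fin q) (Fin r) (MonoidAlgebra ℤ G)}
    {c : Matrix (Fin p) (Fin s) (MonoidAlgebra ℤ G)} {F : Matrix (Fin u) (Fin t) (MonoidAlgebra ℤ G)}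
    (ha : b3 * res G e = res G e0 * c) (hb : b3 * res G e' = res G e1 * F)
    (ha' : adjZ (res G e0) * b3 = c * adjZ (res G e))
    (hb' : adjZ (res G e1) * b3 = F * adjZ (res G e')) :
    (b3 * adjZ b3) * res G e0 = res G e0 * (c * adjZ c) ∧
    (b3 * adjZ b3) * res G e1 = res G e1 * (F * adjZ F) := by
  have ha2 : adjZ b3 * res G e0 = res G e * adjZ c := by
    have := congrArg adjZ ha'
    rw [adjZ_mul, adjZ_mul, adjZ_adjZ, adjZ_adjZ] at this
    exact this
  have hb2 : adjZ b3 * res G e1 = res G e' * adjZ F := by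
    have := congrArg adjZ hb'
    rw [adjZ_mul, adjZ_mul, adjZ_adjZ, adjZ_adjZ] at this
    exact this
  constructor
  · rw [Matrix.mul_assoc, ha2, ← Matrix.mul_assoc, ha, Matrix.mul_assoc]
  · rw [Matrix.mul_assoc, hb2, ← Matrix.mul_assoc, hb, Matrix.mul_assoc]

theorem adjZ_self_two (b2 : Matrix (Fin r) (Fin s) (MonoidAlgebra ℤ G))
    (b3 : Matrix (Fin q) (Fin r) (MonoidAlgebra ℤ G)) :
    adjZ (adjZ b3 * b3 + b2 * adjZ b2) = adjZ b3 * b3 + b2 * adjZ b2 := by
  rw [adjZ_add', adjZ_mul, adjZ_mul, adjZ_adjZ, adjZ_adjZ]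

theorem adjZ_self_one (b3 : Matrix (Fin q) (Fin r) (MonoidAlgebra ℤ G)) :
    adjZ (b3 * adjZ b3) = b3 * adjZ b3 := by
  rw [adjZ_mul, adjZ_adjZ]

theorem adjZ_self_one' (b3 : Matrix (Fin q) (Fin r) (MonoidAlgebra ℤ G)) :
    adjZ (adjZ b3 * b3) = adjZ b3 * b3 := by
  rw [adjZ_mul, adjZ_adjZ]

/-- for selfadjoint blocks over a finite group -/
theorem log_fkDet_block [Finite G] {e : Fin s → Fin r} {e' : Fin t → Fin r}
    (hb : Function.Bijective (Sum.elim e e')) {A : Matrix (Fin r) (Fin r) (MonoidAlgebra ℤ G)}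
    {B : Matrix (Fin s) (Fin s) (MonoidAlgebra ℤ G)} {C : Matrix (Fin t) (Fin t) (MonoidAlgebra ℤ G)}
    (hA : adjZ A = A) (hB : adjZ B = B) (hC : adjZ C = C)
    (h1 : A * res G e = res G e * B) (h3 : A * res G e' = res G e' * C) :
    Real.log (fkDet (rMul (A.map toQ)))
      = Real.log (fkDet (rMul (B.map toQ))) + Real.log (fkDet (rMul (C.map toQ))) := by
  rw [fkDet_block hb A B C h1 (by rw [hA, hB, h1]) h3 (by rw [hA, hC, h3]) (fkDet_pos_finite B)
    (fkDet_pos_finite C), Real.log_mul (fkDet_pos_finite B).ne' (fkDet_pos_finite C).ne']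

end blocks

section one
variable {Q : Type} [Group Q]

/-- the matrix of the operator of a group ring element -/
def cm (a : MonoidAlgebra ℤ Q) : Matrix Q Q ℂ :=
  Matrix.of fun x y => ((a.coeff (x⁻¹ * y) : ℤ) : ℂ)

theorem cm_mul [Fintype Q] (a b : MonoidAlgebra ℤ Q) : cm (a * b) = cm a * cm b := by
  ext1 x y
  have h := coeff_mul_sum a b x⁻¹ y⁻¹
  rw [inv_inv] at h
  rw [Matrix.mul_apply]
  change (((a * b).coeff (x⁻¹ * y) : ℤ) : ℂ) = _
  rw [h]
  push_cast
  rw [← Equiv.sum_comp (Equiv.inv Q)]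
  apply Finset.sum_congr rfl
  intro k _
  simp [cm]

theorem cm_invZ (a : MonoidAlgebra ℤ Q) : cm (invZ a) = (cm a)ᴴ := by
  ext1 x y
  rw [Matrix.conjTranspose_apply]
  change (((invZ a).coeff (x⁻¹ * y) : ℤ) : ℂ) = star ((a.coeff (y⁻¹ * x) : ℤ) : ℂ)
  have h : (invZ a).coeff (x⁻¹ * y) = a.coeff (y⁻¹ * x) := by
    have := invol_coeff a (x⁻¹ * y)
    rw [mul_inv_rev, inv_inv] at this
    exact this
  rw [h]
  simp

theorem cm_one [Fintype Q] [DecidableEq Q] : cm (1 : MonoidAlgebra ℤ Q) = 1 := by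
  ext1 x y
  change (((1 : MonoidAlgebra ℤ Q).coeff (x⁻¹ * y) : ℤ) : ℂ) = _
  rw [MonoidAlgebra.one_def, MonoidAlgebra.coeff_single, Finsupp.single_apply, Matrix.one_apply]
  by_cases h : x = y
  · subst h
    simp
  · rw [if_neg h, if_neg]
    · simp
    · intro h1
      exact h (inv_mul_eq_one.mp h1.symm)

theorem log_fkDet_one [Fintype Q] [DecidableEq Q] (a : MonoidAlgebra ℤ Q) (h : (cm a).det ≠ 0) :
    Real.log (fkDet (rMul ((one1 a).map toQ))) = Real.log ‖(cm a).det‖ / (Nat.card Q : ℝ) := by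
  have e : (Matrix.of fun x y : Q => (((toQ a).coeff (x⁻¹ * y) : ℚ) : ℂ)) = cm a := by
    ext1 x y
    change (((toQ a).coeff (x⁻¹ * y) : ℚ) : ℂ) = _
    rw [toQ_coeff]
    simp [cm]
  have h1 := fkDet_finite (toQ a) (by rw [e]; exact h)
  rw [e] at h1
  have h2 : (one1 a).map toQ
      = (Matrix.of fun _ _ => toQ a : Matrix (Fin 1) (Fin 1) (MonoidAlgebra ℚ Q)) := rfl
  rw [h2, h1, Real.log_exp]

theorem one1_mul_adj (a : MonoidAlgebra ℤ Q) :
    one1 a * adjZ (one1 a) = one1 (a * invZ a) := by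
  ext1 i j
  rw [Matrix.mul_apply, Fin.sum_univ_one]
  rfl

theorem adj_mul_one1 (a : MonoidAlgebra ℤ Q) :
    adjZ (one1 a) * one1 a = one1 (invZ a * a) := by
  ext1 i j
  rw [Matrix.mul_apply, Fin.sum_univ_one]
  rfl

theorem log_fkDet_mul_adj [Fintype Q] [DecidableEq Q] (a : MonoidAlgebra ℤ Q)
    (h : (cm a).det ≠ 0) : Real.log (fkDet (rMul ((one1 a * adjZ (one1 a)).map toQ)))
      = 2 * (Real.log ‖(cm a).det‖ / (Nat.card Q : ℝ)) := by
  have e : ‖(cm (a * invZ a)).det‖ = ‖(cm a).det‖ ^ 2 := by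
    rw [cm_mul, cm_invZ, Matrix.det_mul, Matrix.det_conjTranspose, norm_mul, norm_star, sq]
  rw [one1_mul_adj, log_fkDet_one, e, Real.log_pow]
  · push_cast
    ring
  · rw [← norm_ne_zero_iff, e]
    exact pow_ne_zero 2 (norm_ne_zero_iff.mpr h)

theorem log_fkDet_adj_mul [Fintype Q] [DecidableEq Q] (a : MonoidAlgebra ℤ Q)
    (h : (cm a).det ≠ 0) : Real.log (fkDet (rMul ((adjZ (one1 a) * one1 a).map toQ)))
      = 2 * (Real.log ‖(cm a).det‖ / (Nat.card Q : ℝ)) := by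
  have e : ‖(cm (invZ a * a)).det‖ = ‖(cm a).det‖ ^ 2 := by
    rw [cm_mul, cm_invZ, Matrix.det_mul, Matrix.det_conjTranspose, norm_mul, norm_star, sq]
  rw [adj_mul_one1, log_fkDet_one, e, Real.log_pow]
  · push_cast
    ring
  · rw [← norm_ne_zero_iff, e]
    exact pow_ne_zero 2 (norm_ne_zero_iff.mpr h)

end one

end Pool.Agent.R782
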