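import Mathlib

/-!
Averages of `log |P|` over the `n`-th roots of unity come arbitrarily close to the logarithmic Mahler
measure for suitable large multiples `n` of a given number.
-/

open Polynomial Complex Filter Topology

noncomputable section

namespace Pool.Agent.R782

/-- the `n`-th roots of unity -/
def mu (n : ℕ) : Finset ℂ := nthRootsFinset n (1 : ℂ)

theorem mem_mu {n : ℕ} (hn : 0 < n) {z : ℂ} : z ∈ mu n ↔ z ^ n = 1 := mem_nthRootsFinset hn 1

theorem norm_of_mem_mu {n : ℕ} (hn : 0 < n) {z : ℂ} (hz : z ∈ mu n) : ‖z‖ = 1 := by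
  rw [mem_mu hn] at hz
  have h : ‖z‖ ^ n = 1 := by rw [← norm_pow, hz, norm_one]
  exact (pow_eq_one_iff_of_nonneg (norm_nonneg z) hn.ne').mp h

theorem card_mu {n : ℕ} (hn : 0 < n) : (mu n).card = n :=
  (Complex.isPrimitiveRoot_exp n hn.ne').card_nthRootsFinset

theorem sum_mu_zpow {n : ℕ} (hn : 0 < n) (m : ℤ) :
    ∑ z ∈ mu n, z ^ m = if (n : ℤ) ∣ m then (n : ℂ) else 0 := by
  split_ifs with h
  · obtain ⟨k, rfl⟩ := h
    have h1 : ∀ z ∈ mu n, z ^ ((n : ℤ) * k) = 1 := by
      intro z hz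
      rw [mem_mu hn] at hz
      rw [zpow_mul, zpow_natCast, hz, one_zpow]
    rw [Finset.sum_congr rfl h1, Finset.sum_const, card_mu hn]
    simp
  · set ζ := Complex.exp (2 * Real.pi * Complex.I / n) with hζ
    have hp : IsPrimitiveRoot ζ n := Complex.isPrimitiveRoot_exp n hn.ne'
    have hζ0 : ζ ≠ 0 := hp.ne_zero hn.ne'
    have h1 : ζ ^ m ≠ 1 := fun h2 => h ((hp.zpow_eq_one_iff_dvd m).mp h2)
    have h2 : ∑ z ∈ mu n, z ^ m = ζ ^ m * ∑ z ∈ mu n, z ^ m := by
      rw [Finset.mul_sum]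
      refine (Finset.sum_nbij' (fun z => ζ * z) (fun z => ζ⁻¹ * z) ?_ ?_ ?_ ?_ ?_).symm
      · intro z hz
        rw [mem_mu hn] at hz ⊢
        rw [mul_pow, hz, hp.pow_eq_one, one_mul]
      · intro z hz
        rw [mem_mu hn] at hz ⊢
        rw [mul_pow, hz, inv_pow, hp.pow_eq_one, inv_one, one_mul]
      · intro z _
        rw [← mul_assoc, inv_mul_cancel₀ hζ0, one_mul]
      · intro z _
        rw [← mul_assoc, mul_inv_cancel₀ hζ0, one_mul]
      · intro z _
        rw [mul_zpow]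
    have h3 : (1 - ζ ^ m) * ∑ z ∈ mu n, z ^ m = 0 := by
      rw [sub_mul, one_mul, ← h2, sub_self]
    rcases mul_eq_zero.mp h3 with h4 | h4
    · exact absurd (sub_eq_zero.mp h4).symm h1
    · exact h4

theorem prod_mu {n : ℕ} (hn : 0 < n) (α : ℂ) : ∏ z ∈ mu n, (α - z) = α ^ n - 1 := by
  have h := X_pow_sub_one_eq_prod hn (Complex.isPrimitiveRoot_exp n hn.ne')
  have h1 := congrArg (Polynomial.eval α) h
  simp only [eval_sub, eval_pow, eval_X, eval_one, eval_prod, eval_C] at h1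
  exact h1.symm

theorem prod_mu_erase {n : ℕ} (hn : 0 < n) {α : ℂ} (hα : α ∈ mu n) :
    ∏ z ∈ (mu n).erase α, (α - z) = n * α ^ (n - 1) := by
  have h := X_pow_sub_one_eq_prod hn (Complex.isPrimitiveRoot_exp n hn.ne')
  have h0 : ∏ ζ ∈ nthRootsFinset n (1 : ℂ), (X - C ζ)
      = (X - C α) * ∏ ζ ∈ (mu n).erase α, (X - C ζ) :=
    (Finset.mul_prod_erase (mu n) (fun ζ => (X - C ζ : ℂ[X])) hα).symm
  rw [h0] at h
  have h1 := congrArg (fun p => Polynomial.eval α (derivative p)) h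
  simp only [derivative_sub, derivative_X_pow, derivative_one, sub_zero, derivative_mul,
    derivative_X, derivative_C, one_mul, eval_add, eval_mul, eval_sub, eval_X, eval_C, sub_self,
    zero_mul, add_zero, eval_prod, eval_pow, eval_natCast, map_natCast] at h1
  exact h1.symm

/-- The sum of the logarithms of the distances from the roots of unity (the value at the
point itself being zero). -/
theorem sum_log_mu {n : ℕ} (hn : 0 < n) (α : ℂ) : ∑ z ∈ mu n, Real.log ‖z - α‖
    = if α ^ n = 1 then Real.log n else Real.log ‖α ^ n - 1‖ := by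
  have hs : ∀ z, Real.log ‖z - α‖ = Real.log ‖α - z‖ := fun z => by rw [norm_sub_rev]
  simp_rw [hs]
  split_ifs with h
  · have hα : α ∈ mu n := (mem_mu hn).mpr h
    rw [← Finset.add_sum_erase _ _ hα, sub_self, norm_zero, Real.log_zero, zero_add,
      ← Real.log_prod, ← norm_prod, prod_mu_erase hn hα, norm_mul, norm_pow,
      norm_of_mem_mu hn hα, one_pow, mul_one]
    · simp
    · intro z hz
      rw [norm_ne_zero_iff, sub_ne_zero]
      exact (Finset.ne_of_mem_erase hz).symm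
  · rw [← Real.log_prod, ← norm_prod, prod_mu hn]
    intro z hz
    rw [norm_ne_zero_iff, sub_ne_zero]
    rintro rfl
    exact h ((mem_mu hn).mp hz)

/-- `n` is good for `α` up to `ε` -/
def Good (ε : ℝ) (n : ℕ) (α : ℂ) : Prop :=
  |1 / (n : ℝ) * ∑ z ∈ mu n, Real.log ‖z - α‖ - Real.posLog ‖α‖| ≤ ε

theorem good_lt {α : ℂ} (hα : ‖α‖ < 1) {ε : ℝ} (hε : 0 < ε) :
    ∀ᶠ n in atTop, Good ε n α := by
  have h1 : Tendsto (fun n : ℕ => α ^ n) atTop (𝓝 0) :=
    tendsto_pow_atTop_nhds_zero_of_norm_lt_one hα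
  have h2 : Tendsto (fun n : ℕ => Real.log ‖α ^ n - 1‖) atTop (𝓝 (Real.log 1)) := by
    have h3 : Tendsto (fun n : ℕ => ‖α ^ n - 1‖) atTop (𝓝 1) := by
      have := (h1.sub_const 1).norm
      simpa using this
    exact h3.log one_ne_zero
  rw [Real.log_one] at h2
  have h4 : Tendsto (fun n : ℕ => 1 / (n : ℝ) * Real.log ‖α ^ n - 1‖) atTop (𝓝 0) := by
    have := tendsto_one_div_atTop_nhds_zero_nat.mul h2
    simpa using this
  have h5 := (Metric.tendsto_nhds.mp h4) ε hε
  filter_upwards [h5, eventually_gt_atTop 0] with n hn hn0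
  unfold Good
  have h6 : α ^ n ≠ 1 := by
    intro h
    have : ‖α‖ ^ n = 1 := by rw [← norm_pow, h, norm_one]
    have h7 : ‖α‖ ^ n < 1 := pow_lt_one₀ (norm_nonneg _) hα hn0.ne'
    linarith
  have h8 : Real.posLog ‖α‖ = 0 := by
    rw [Real.posLog_eq_zero_iff, abs_norm]
    exact hα.le
  rw [sum_log_mu hn0, if_neg h6, h8]
  rw [Real.dist_eq] at hn
  exact hn.le

theorem good_gt {α : ℂ} (hα : 1 < ‖α‖) {ε : ℝ} (hε : 0 < ε) :
    ∀ᶠ n in atTop, Good ε n α := by
  have hα0 : α ≠ 0 := by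
    rintro rfl
    simp at hα
    linarith
  have h1 : Tendsto (fun n : ℕ => (α⁻¹) ^ n) atTop (𝓝 0) :=
    tendsto_pow_atTop_nhds_zero_of_norm_lt_one (by rw [norm_inv]; exact inv_lt_one_of_one_lt₀ hα)
  have h2 : Tendsto (fun n : ℕ => Real.log ‖1 - (α⁻¹) ^ n‖) atTop (𝓝 (Real.log 1)) := by
    have h3 : Tendsto (fun n : ℕ => ‖1 - (α⁻¹) ^ n‖) atTop (𝓝 1) := by
      have := ((tendsto_const_nhds (x := (1 : ℂ))).sub h1).norm
      simpa using this
    exact h3.log one_ne_zero
  rw [Real.log_one] at h2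
  have h4 : Tendsto (fun n : ℕ => 1 / (n : ℝ) * Real.log ‖1 - (α⁻¹) ^ n‖) atTop (𝓝 0) := by
    have := tendsto_one_div_atTop_nhds_zero_nat.mul h2
    simpa using this
  have h5 := (Metric.tendsto_nhds.mp h4) ε hε
  filter_upwards [h5, eventually_gt_atTop 0] with n hn hn0
  unfold Good
  have hpow : ∀ β : ℂ, ‖β‖ < 1 → β ^ n ≠ 1 := by
    intro β hβ h
    have : ‖β‖ ^ n = 1 := by rw [← norm_pow, h, norm_one]
    have h7 : ‖β‖ ^ n < 1 := pow_lt_one₀ (norm_nonneg _) hβ hn0.ne'
    linarith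
  have hinv : (α⁻¹) ^ n ≠ 1 := hpow _ (by rw [norm_inv]; exact inv_lt_one_of_one_lt₀ hα)
  have h6 : α ^ n ≠ 1 := by
    intro h
    apply hinv
    rw [inv_pow, h, inv_one]
  have h8 : Real.posLog ‖α‖ = Real.log ‖α‖ := by
    rw [Real.posLog_eq_log]
    rw [abs_norm]
    exact hα.le
  have h9 : α ^ n - 1 = α ^ n * (1 - (α⁻¹) ^ n) := by
    rw [mul_sub, mul_one, inv_pow, mul_inv_cancel₀ (pow_ne_zero n hα0)]
  have h10 : Real.log ‖α ^ n - 1‖ = n * Real.log ‖α‖ + Real.log ‖1 - (α⁻¹) ^ n‖ := by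
    rw [h9, norm_mul, Real.log_mul, norm_pow, Real.log_pow]
    · exact norm_ne_zero_iff.mpr (pow_ne_zero n hα0)
    · rw [norm_ne_zero_iff, sub_ne_zero]
      exact hinv.symm
  rw [sum_log_mu hn0, if_neg h6, h8, h10]
  have hn' : (n : ℝ) ≠ 0 := by exact_mod_cast hn0.ne'
  have e : 1 / (n : ℝ) * (n * Real.log ‖α‖ + Real.log ‖1 - (α⁻¹) ^ n‖) - Real.log ‖α‖
      = 1 / (n : ℝ) * Real.log ‖1 - (α⁻¹) ^ n‖ := by
    field_simp
    ring
  rw [e]
  rw [Real.dist_eq, sub_zero] at hn
  exact hn.le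

theorem good_root {α : ℂ} {m : ℕ} (hm : 0 < m) (hα : α ^ m = 1) {ε : ℝ} (hε : 0 < ε) :
    ∀ᶠ n in atTop, Good ε n α := by
  have hα1 : ‖α‖ = 1 := norm_of_mem_mu hm ((mem_mu hm).mpr hα)
  have h8 : Real.posLog ‖α‖ = 0 := by
    rw [Real.posLog_eq_zero_iff, abs_norm]
    exact hα1.le
  -- a bound for the finitely many values
  obtain ⟨C, hC⟩ : ∃ C : ℝ, ∀ k : ℕ, |Real.log ‖α ^ k - 1‖| ≤ C := by
    refine ⟨∑ j ∈ Finset.range m, |Real.log ‖α ^ j - 1‖|, fun k => ?_⟩
    have h1 : α ^ k = α ^ (k % m) := by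
      conv_lhs => rw [← Nat.mod_add_div k m, pow_add, pow_mul, hα, one_pow, mul_one]
    rw [h1]
    exact Finset.single_le_sum (f := fun j => |Real.log ‖α ^ j - 1‖|) (fun _ _ => abs_nonneg _)
      (Finset.mem_range.mpr (Nat.mod_lt _ hm))
  have h2 : Tendsto (fun n : ℕ => Real.log n / (n : ℝ)) atTop (𝓝 0) := by
    have := (Real.isLittleO_log_id_atTop.tendsto_div_nhds_zero).comp tendsto_natCast_atTop_atTop
    exact this
  have h3 : Tendsto (fun n : ℕ => C / (n : ℝ)) atTop (𝓝 0) :=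
    tendsto_const_nhds.div_atTop tendsto_natCast_atTop_atTop
  have h4 := (Metric.tendsto_nhds.mp h2) ε hε
  have h5 := (Metric.tendsto_nhds.mp h3) ε hε
  filter_upwards [h4, h5, eventually_gt_atTop 0] with n h4 h5 hn0
  have hn' : (0 : ℝ) < n := by exact_mod_cast hn0
  unfold Good
  rw [sum_log_mu hn0, h8, sub_zero]
  rw [Real.dist_eq, sub_zero] at h4 h5
  split_ifs with h6
  · rw [one_div, inv_mul_eq_div]
    exact h4.le
  · rw [abs_mul, abs_of_nonneg (by positivity : (0 : ℝ) ≤ 1 / n)]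
    have h7 : C / (n : ℝ) < ε := lt_of_abs_lt h5
    have h9 := hC n
    rw [one_div, inv_mul_eq_div]
    exact (div_le_div_of_nonneg_right h9 hn'.le).trans h7.le

theorem exists_good (R : Finset ℂ) {N : ℕ} (hN : 0 < N) (n0 : ℕ) {ε : ℝ} (hε : 0 < ε) :
    ∃ n, n0 ≤ n ∧ N ∣ n ∧ 0 < n ∧ ∀ α ∈ R, Good ε n α := by
  classical
  set R' := R.filter fun α => ‖α‖ = 1 ∧ ∀ m : ℕ, 0 < m → α ^ m ≠ 1 with hR'
  -- the others are good
  have h1 : ∀ᶠ n in atTop, ∀ α ∈ R, α ∉ R' → Good ε n α := by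
    have h2 : ∀ α ∈ R, ∀ᶠ n in atTop, α ∉ R' → Good ε n α := by
      intro α hα
      by_cases h3 : α ∈ R'
      · exact Eventually.of_forall fun n h => absurd h3 h
      · have h4 : ∀ᶠ n in atTop, Good ε n α := by
          rcases lt_trichotomy ‖α‖ 1 with h5 | h5 | h5
          · exact good_lt h5 hε
          · have h6 : ∃ m : ℕ, 0 < m ∧ α ^ m = 1 := by
              by_contra hcon
              push Not at hcon
              exact h3 (Finset.mem_filter.mpr ⟨hα, h5, hcon⟩)
            obtain ⟨m, hm, h7⟩ := h6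
            exact good_root hm h7 hε
          · exact good_gt h5 hε
        exact h4.mono fun n h _ => h
    exact (Filter.eventually_all_finset R).mpr h2
  obtain ⟨n1, hn1⟩ := eventually_atTop.mp h1
  -- the separation
  obtain ⟨c, hc0, hc⟩ : ∃ c : ℝ, 0 < c ∧ ∀ α ∈ R', ∀ d : ℕ, 0 < d → d ≤ R'.card →
      c ≤ ‖α ^ (N * d) - 1‖ := by
    set T := (R' ×ˢ Finset.Icc 1 R'.card).image fun x => ‖x.1 ^ (N * x.2) - 1‖ with hT
    by_cases hne : T.Nonempty
    · refine ⟨T.min' hne, ?_, ?_⟩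
      · have h2 := T.min'_mem hne
        obtain ⟨x, hx, h3⟩ := Finset.mem_image.mp h2
        rw [Finset.mem_product, Finset.mem_Icc] at hx
        rw [← h3, norm_pos_iff, sub_ne_zero]
        exact (Finset.mem_filter.mp hx.1).2.2 _ (Nat.mul_pos hN (by omega))
      · intro α hα d hd hd'
        apply T.min'_le
        rw [hT, Finset.mem_image]
        exact ⟨(α, d), Finset.mem_product.mpr ⟨hα, Finset.mem_Icc.mpr ⟨hd, hd'⟩⟩, rfl⟩
    · refine ⟨1, one_pos, ?_⟩
      intro α hα d hd hd'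
      exact absurd ⟨_, Finset.mem_image.mpr ⟨(α, d), Finset.mem_product.mpr
        ⟨hα, Finset.mem_Icc.mpr ⟨hd, hd'⟩⟩, rfl⟩⟩ hne
  -- a large number
  have e1 : Tendsto (fun n : ℕ => 2 * Real.exp (-(ε * n))) atTop (𝓝 0) := by
    have h2 : Tendsto (fun n : ℕ => ε * (n : ℝ)) atTop atTop :=
      tendsto_natCast_atTop_atTop.const_mul_atTop hε
    have h3 := (Real.tendsto_exp_neg_atTop_nhds_zero.comp h2).const_mul 2
    rw [mul_zero] at h3
    exact h3
  have e2 : Tendsto (fun n : ℕ => Real.log 2 / (n : ℝ)) atTop (𝓝 0) :=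
    tendsto_const_nhds.div_atTop tendsto_natCast_atTop_atTop
  have e3 := (e1.eventually_lt_const hc0).and (e2.eventually_lt_const hε)
  obtain ⟨n2, hn2⟩ := eventually_atTop.mp e3
  set K := n0 + n1 + n2 + 1 with hK
  have hNK : K ≤ N * K := Nat.le_mul_of_pos_left K hN
  by_contra hcon
  push Not at hcon
  -- all are bad
  have key : ∀ k : ℕ, ∃ α ∈ R', ‖α ^ (N * (K + k)) - 1‖ < Real.exp (-(ε * ((N * K : ℕ) : ℝ))) := by
    intro k
    have hge : N * K ≤ N * (K + k) := Nat.mul_le_mul_left N (Nat.le_add_right K k)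
    have hpos : 0 < N * (K + k) := Nat.mul_pos hN (by omega)
    obtain ⟨α, hα, hbad⟩ := hcon (N * (K + k)) (by omega) (dvd_mul_right _ _) hpos
    have hα' : α ∈ R' := by
      by_contra h
      exact hbad (hn1 _ (by omega) α hα h)
    refine ⟨α, hα', ?_⟩
    obtain ⟨_, h3, h4⟩ := Finset.mem_filter.mp hα'
    have h5 : α ^ (N * (K + k)) ≠ 1 := h4 _ hpos
    have h6 : 0 < ‖α ^ (N * (K + k)) - 1‖ := norm_pos_iff.mpr (sub_ne_zero.mpr h5)
    have h7 : ‖α ^ (N * (K + k)) - 1‖ ≤ 2 := by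
      refine (norm_sub_le _ _).trans ?_
      rw [norm_pow, h3, one_pow, norm_one]
      norm_num
    have h8 : Real.posLog ‖α‖ = 0 := by
      rw [Real.posLog_eq_zero_iff, abs_norm]
      exact h3.le
    set n := N * (K + k) with hn
    have hn' : (0 : ℝ) < (n : ℝ) := by exact_mod_cast hpos
    unfold Good at hbad
    rw [sum_log_mu hpos, if_neg h5, h8, sub_zero, abs_le] at hbad
    have h9 : 1 / (n : ℝ) * Real.log ‖α ^ n - 1‖ ≤ ε := by
      have h10 : Real.log ‖α ^ n - 1‖ ≤ Real.log 2 := Real.log_le_log h6 h7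
      have h11 := (hn2 n (by omega)).2
      rw [one_div, inv_mul_eq_div]
      exact (div_le_div_of_nonneg_right h10 hn'.le).trans h11.le
    have h12 : 1 / (n : ℝ) * Real.log ‖α ^ n - 1‖ < -ε := by
      by_contra h
      exact hbad ⟨not_lt.mp h, h9⟩
    have h13 : Real.log ‖α ^ n - 1‖ < -(ε * n) := by
      rw [one_div, inv_mul_eq_div, div_lt_iff₀ hn'] at h12
      linarith
    have h14 : ‖α ^ n - 1‖ < Real.exp (-(ε * n)) := (Real.log_lt_iff_lt_exp h6).mp h13
    refine h14.trans_le (Real.exp_le_exp.mpr ?_)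
    have : ((N * K : ℕ) : ℝ) ≤ (n : ℝ) := by exact_mod_cast hge
    nlinarith
  choose a ha hb using key
  -- pigeonhole
  obtain ⟨k, hk, l, hl, hkl, hal⟩ := Finset.exists_ne_map_eq_of_card_lt_of_maps_to
    (s := Finset.range (R'.card + 1)) (t := R') (f := a) (by simp)
    (fun k _ => ha k)
  have main : ∀ k l : ℕ, k < l → l < R'.card + 1 → a k = a l → False := by
    intro k l hkl hl hal
    have h1 := hb k
    have h2 := hb l
    rw [← hal] at h2
    have h3 := hc (a k) (ha k) (l - k) (by omega) (by omega)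
    have hα1 : ‖a k‖ = 1 := (Finset.mem_filter.mp (ha k)).2.1
    have h4 : (a k) ^ (N * (K + l)) - (a k) ^ (N * (K + k))
        = (a k) ^ (N * (K + k)) * ((a k) ^ (N * (l - k)) - 1) := by
      rw [mul_sub, mul_one, ← pow_add, ← Nat.mul_add]
      congr 3
      omega
    have h5 : ‖(a k) ^ (N * (K + l)) - (a k) ^ (N * (K + k))‖ = ‖(a k) ^ (N * (l - k)) - 1‖ := by
      rw [h4, norm_mul, norm_pow, hα1, one_pow, one_mul]
    have h6 : ‖(a k) ^ (N * (K + l)) - (a k) ^ (N * (K + k))‖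
        ≤ ‖(a k) ^ (N * (K + l)) - 1‖ + ‖(a k) ^ (N * (K + k)) - 1‖ := by
      have : (a k) ^ (N * (K + l)) - (a k) ^ (N * (K + k))
          = ((a k) ^ (N * (K + l)) - 1) - ((a k) ^ (N * (K + k)) - 1) := by ring
      rw [this]
      exact norm_sub_le _ _
    have h7 := (hn2 (N * K) (by omega)).1
    linarith
  rcases lt_or_gt_of_ne hkl with h | h
  · exact main k l h (Finset.mem_range.mp hl) hal
  · exact main l k h (Finset.mem_range.mp hk) hal.symm

/-- The average of a function which is `log |P|` away from the zeros of `P`. -/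
theorem avg_close (P : ℂ[X]) (hP : P ≠ 0) (f : ℂ → ℝ)
    (hf : ∀ z, ‖z‖ = 1 → P.eval z ≠ 0 → f z = Real.log ‖P.eval z‖) :
    ∃ C : ℝ, 0 ≤ C ∧ ∀ n : ℕ, 0 < n → ∀ ε : ℝ, (∀ α ∈ P.roots.toFinset, Good ε n α) →
      |1 / (n : ℝ) * ∑ z ∈ mu n, f z - P.logMahlerMeasure| ≤ P.roots.card * ε + C / n := by
  classical
  set g : ℂ → ℝ := fun z => Real.log ‖P.leadingCoeff‖ + (P.roots.map fun α => Real.log ‖z - α‖).sum
    with hg
  have hfg : ∀ z, ‖z‖ = 1 → z ∉ P.roots.toFinset → f z - g z = 0 := by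
    intro z hz hz2
    have h1 : P.eval z ≠ 0 := by
      intro h
      exact hz2 (Multiset.mem_toFinset.mpr ((mem_roots hP).mpr h))
    have h2 : P.eval z = P.leadingCoeff * (P.roots.map fun α => z - α).prod := by
      conv_lhs => rw [(IsAlgClosed.splits P).eq_prod_roots]
      rw [eval_mul, eval_C, eval_multiset_prod, Multiset.map_map]
      simp
    rw [hf z hz h1, h2, norm_mul, Real.log_mul, hg]
    · simp only
      have h3 : ∀ s : Multiset ℂ, (∀ α ∈ s, z ≠ α) →
          Real.log ‖(s.map fun α => z - α).prod‖ = (s.map fun α => Real.log ‖z - α‖).sum := by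
        intro s
        induction s using Multiset.induction_on with
        | empty => simp
        | cons a s ih =>
          intro hs
          have ha : z - a ≠ 0 := sub_ne_zero.mpr (hs a (Multiset.mem_cons_self a s))
          have hs' : ∀ α ∈ s, z ≠ α := fun α hα => hs α (Multiset.mem_cons_of_mem hα)
          have hp : (s.map fun α => z - α).prod ≠ 0 := by
            rw [Ne, Multiset.prod_eq_zero_iff, Multiset.mem_map]
            rintro ⟨α, hα, h0⟩
            exact hs' α hα (sub_eq_zero.mp h0)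
          rw [Multiset.map_cons, Multiset.prod_cons, norm_mul, Real.log_mul
            (norm_ne_zero_iff.mpr ha) (norm_ne_zero_iff.mpr hp), ih hs', Multiset.map_cons,
            Multiset.sum_cons]
      rw [h3 P.roots]
      · ring
      · rintro α hα rfl
        exact hz2 (Multiset.mem_toFinset.mpr hα)
    · exact norm_ne_zero_iff.mpr (leadingCoeff_ne_zero.mpr hP)
    · intro h0
      apply h1
      rw [h2, norm_eq_zero.mp h0, mul_zero]
  refine ⟨∑ z ∈ P.roots.toFinset, |f z - g z|, Finset.sum_nonneg fun _ _ => abs_nonneg _,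
    fun n hn ε hgood => ?_⟩
  have hn' : (0 : ℝ) < n := by exact_mod_cast hn
  -- comparison of `f` and `g`
  have h1 : |∑ z ∈ mu n, f z - ∑ z ∈ mu n, g z| ≤ ∑ z ∈ P.roots.toFinset, |f z - g z| := by
    rw [← Finset.sum_sub_distrib]
    refine (Finset.abs_sum_le_sum_abs _ _).trans ?_
    have h2 : ∑ z ∈ mu n, |f z - g z| = ∑ z ∈ mu n with z ∈ P.roots.toFinset, |f z - g z| := by
      rw [Finset.sum_filter]
      apply Finset.sum_congr rfl
      intro z hz
      split_ifs with h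
      · rfl
      · rw [hfg z (norm_of_mem_mu hn hz) h, abs_zero]
    rw [h2]
    apply Finset.sum_le_sum_of_subset_of_nonneg
    · intro z hz
      exact (Finset.mem_filter.mp hz).2
    · intro _ _ _
      exact abs_nonneg _
  -- the sum of `g`
  have h3 : 1 / (n : ℝ) * ∑ z ∈ mu n, g z = Real.log ‖P.leadingCoeff‖
      + (P.roots.map fun α => 1 / (n : ℝ) * ∑ z ∈ mu n, Real.log ‖z - α‖).sum := by
    have h4 : ∀ s : Multiset ℂ, ∑ z ∈ mu n, (s.map fun α => Real.log ‖z - α‖).sum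
        = (s.map fun α => ∑ z ∈ mu n, Real.log ‖z - α‖).sum := by
      intro s
      induction s using Multiset.induction_on with
      | empty => simp
      | cons a s ih => simp [Finset.sum_add_distrib, ih]
    rw [hg]
    simp only
    rw [Finset.sum_add_distrib, h4, Finset.sum_const, card_mu hn, mul_add, nsmul_eq_mul,
      Multiset.sum_map_mul_left]
    congr 1
    field_simp
  have h5 : |1 / (n : ℝ) * ∑ z ∈ mu n, g z - P.logMahlerMeasure| ≤ P.roots.card * ε := by
    rw [h3, logMahlerMeasure_eq_log_leadingCoeff_add_sum_log_roots]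
    have h6 : ∀ s : Multiset ℂ, (∀ α ∈ s, Good ε n α) →
        |(s.map fun α => 1 / (n : ℝ) * ∑ z ∈ mu n, Real.log ‖z - α‖).sum
          - (s.map fun a => Real.posLog ‖a‖).sum| ≤ s.card * ε := by
      intro s
      induction s using Multiset.induction_on with
      | empty => simp
      | cons a s ih =>
        intro hs
        have ha := hs a (Multiset.mem_cons_self a s)
        have h7 := ih fun α hα => hs α (Multiset.mem_cons_of_mem hα)
        unfold Good at ha
        rw [Multiset.map_cons, Multiset.sum_cons, Multiset.map_cons, Multiset.sum_cons,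
          Multiset.card_cons]
        push_cast
        rw [abs_le] at ha h7 ⊢
        constructor <;> linarith [ha.1, ha.2, h7.1, h7.2]
    have h8 := h6 P.roots fun α hα => hgood α (Multiset.mem_toFinset.mpr hα)
    have e : Real.log ‖P.leadingCoeff‖
        + (P.roots.map fun α => 1 / (n : ℝ) * ∑ z ∈ mu n, Real.log ‖z - α‖).sum
        - (Real.log ‖P.leadingCoeff‖ + (P.roots.map fun a => Real.posLog ‖a‖).sum)
        = (P.roots.map fun α => 1 / (n : ℝ) * ∑ z ∈ mu n, Real.log ‖z - α‖).sum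
          - (P.roots.map fun a => Real.posLog ‖a‖).sum := by ring
    rw [e]
    exact h8
  have h9 : |1 / (n : ℝ) * ∑ z ∈ mu n, f z - 1 / (n : ℝ) * ∑ z ∈ mu n, g z|
      ≤ (∑ z ∈ P.roots.toFinset, |f z - g z|) / n := by
    rw [← mul_sub, abs_mul, abs_of_nonneg (by positivity : (0 : ℝ) ≤ 1 / n), one_div,
      inv_mul_eq_div]
    exact div_le_div_of_nonneg_right h1 hn'.le
  rw [abs_le] at h5 h9 ⊢
  constructor <;> linarith [h5.1, h5.2, h9.1, h9.2]

end Pool.Agent.R782
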