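import Pool.Agent.R782.HeisCx

/-!
Acyclicity of the closed `7`-manifolds, and their torsions over finite groups.
-/

open scoped Matrix InnerProductSpace

noncomputable section

namespace Pool.Agent.R782

open Pool.Agent.Helper993.HeisDet Pool.Agent.Helper993.Cpx Pool.Agent.TH630.Tor
  Pool.Agent.Helper993.SP Pool.Agent.Helper993.FK Pool.Agent.Helper993.Delta ContinuousLinearMap

section general
variable {G : Type} [Group G] (X : ThreeCx G)

theorem toQ_eq : (toQ : MonoidAlgebra ℤ G → MonoidAlgebra ℚ G)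
    = MonoidAlgebra.mapRingHom G (Int.castRingHom ℚ) := rfl

theorem adj_adj {r s : ℕ} (A : Matrix (Fin r) (Fin s) (MonoidAlgebra ℤ G)) (v : L2Pow G r)
    (h : (rMul ((adjZ A).map toQ)).adjoint v = 0) : rMul (A.map toQ) v = 0 := by
  rw [toQ_adjZ, ← adjoint_rMul, ContinuousLinearMap.adjoint_adjoint] at h
  exact h

theorem adj_one {r s : ℕ} (A : Matrix (Fin r) (Fin s) (MonoidAlgebra ℤ G)) (v : L2Pow G s)
    (h : rMul ((adjZ A).map toQ) v = 0) : (rMul (A.map toQ)).adjoint v = 0 := by
  rw [toQ_adjZ, ← adjoint_rMul] at h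
  exact h

/-- The Laplacians of the closed `7`-manifold are injective. -/
theorem seven_inj (h0 : ∀ v, (rMul (X.b1.map toQ)).adjoint v = 0 → v = 0)
    (h1 : ∀ v, rMul (X.b1.map toQ) v = 0 → (rMul (X.b2.map toQ)).adjoint v = 0 → v = 0)
    (h2 : ∀ v, rMul (X.b2.map toQ) v = 0 → (rMul (X.b3.map toQ)).adjoint v = 0 → v = 0)
    (h3 : ∀ v, rMul (X.b3.map toQ) v = 0 → v = 0) :
    ∀ n v, X.sevenManifold.laplacian n v = 0 → v = 0
  | 0, v, hv => h0 v (lap_ker_zero (rMul (X.b1.map toQ)) v hv)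
  | 1, v, hv => by
    have := lap_ker (rMul (X.b1.map toQ)) (rMul (X.b2.map toQ)) v hv
    exact h1 v this.1 this.2
  | 2, v, hv => by
    have := lap_ker (rMul (X.b2.map toQ)) (rMul (X.b3.map toQ)) v hv
    exact h2 v this.1 this.2
  | 3, v, hv => by
    have := lap_ker (rMul (X.b3.map toQ)) (X.sevenManifold.l2d 3) v hv
    exact h3 v this.1
  | 4, v, hv => by
    have := lap_ker (X.sevenManifold.l2d 3) (rMul ((adjZ X.b3).map toQ)) v hv
    exact h3 v (adj_adj X.b3 v this.2)
  | 5, v, hv => by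
    have := lap_ker (rMul ((adjZ X.b3).map toQ)) (rMul ((adjZ X.b2).map toQ)) v hv
    exact h2 v (adj_adj X.b2 v this.2) (adj_one X.b3 v this.1)
  | 6, v, hv => by
    have := lap_ker (rMul ((adjZ X.b2).map toQ)) (rMul ((adjZ X.b1).map toQ)) v hv
    exact h1 v (adj_adj X.b1 v this.2) (adj_one X.b2 v this.1)
  | 7, v, hv => by
    have := lap_ker (rMul ((adjZ X.b1).map toQ)) (X.sevenManifold.l2d 7) v hv
    exact h0 v (adj_one X.b1 v this.1)
  | n + 8, v, _ => by
    apply coord_ext
    intro j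
    exact Fin.elim0 (show Fin 0 from j)

/-- det-`L²`-acyclicity over a residually finite group. -/
theorem seven_acyclic (N : ℕ → Subgroup G) [∀ i, (N i).Normal]
    [∀ i, Finite (G ⧸ N i)] (hanti : Antitone N) (hinf : ⨅ i, N i = ⊥)
    (h : ∀ n v, X.sevenManifold.laplacian n v = 0 → v = 0) : X.sevenManifold.DetL2Acyclic := by
  intro n
  constructor
  · exact FreeCx.dimKer_of_inj _ (h n)
  · by_cases hn : X.sevenManifold.rank n = 0
    · exact fkDet_pos_of_eq_zero hn _
    · have : NeZero (X.sevenManifold.rank n) := ⟨hn⟩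
      have hinj := h n
      rw [X.sevenManifold.laplacian_eq] at hinj ⊢
      exact fkDet_pos N hanti hinf _ hinj

end general

end Pool.Agent.R782
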