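import Pool.Agent.R782.Levels

/-!
The torsions of the finite coverings of the two closed `7`-manifolds.
-/

open scoped Matrix InnerProductSpace Topology

noncomputable section

namespace Pool.Agent.R782

open Pool.Agent.Helper993.HeisDet Pool.Agent.Helper993.Cpx Pool.Agent.TH630.Tor
  Pool.Agent.Helper993.SP Pool.Agent.Helper993.FK Pool.Agent.Helper993.Delta ContinuousLinearMap
  Pool.Agent.Helper993.LT

/-! ### sparse matrices of the restrictions -/

def E3 : Fin 4 → Row 3 (Heis ℤ) := ![[(0, 1, 1)], [(1, 1, 1)], [(2, 1, 1)], []]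
def E1 : Fin 4 → Row 1 (Heis ℤ) := ![[], [], [], [(0, 1, 1)]]
def D0 : Fin 2 → Row 1 (Heis ℤ) := ![[(0, 1, 1)], []]
def D1 : Fin 2 → Row 1 (Heis ℤ) := ![[], [(0, 1, 1)]]
def E3t : Fin 3 → Row 4 (Heis ℤ) := ![[(0, 1, 1)], [(1, 1, 1)], [(2, 1, 1)]]
def E1t (_ : Fin 1) : Row 4 (Heis ℤ) := [(3, 1, 1)]
def D0t (_ : Fin 1) : Row 2 (Heis ℤ) := [(0, 1, 1)]
def D1t (_ : Fin 1) : Row 2 (Heis ℤ) := [(1, 1, 1)]

/-- the inclusions of the coordinates -/
def e3 : Fin 3 → Fin 4 := Fin.castSucc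
def e1 (_ : Fin 1) : Fin 4 := 3
def f0 (_ : Fin 1) : Fin 2 := 0
def f1 (_ : Fin 1) : Fin 2 := 1

theorem res_e3 : res (Heis ℤ) e3 = toM E3 := by
  ext1 i j
  rw [res_apply]
  fin_cases i <;> fin_cases j <;> simp [toM, ev, E3, e3, MonoidAlgebra.one_def]

theorem res_e1 : res (Heis ℤ) e1 = toM E1 := by
  ext1 i j
  rw [res_apply]
  fin_cases i <;> fin_cases j <;> simp [toM, ev, E1, e1, MonoidAlgebra.one_def]

theorem res_f0 : res (Heis ℤ) f0 = toM D0 := by
  ext1 i j
  rw [res_apply]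
  fin_cases i <;> fin_cases j <;> simp [toM, ev, D0, f0, MonoidAlgebra.one_def]

theorem res_f1 : res (Heis ℤ) f1 = toM D1 := by
  ext1 i j
  rw [res_apply]
  fin_cases i <;> fin_cases j <;> simp [toM, ev, D1, f1, MonoidAlgebra.one_def]

theorem adj_e3 : adjZ (res (Heis ℤ) e3) = toM E3t := by
  ext1 i j
  rw [adjZ_res]
  fin_cases i <;> fin_cases j <;> simp [toM, ev, E3t, e3, MonoidAlgebra.one_def]

theorem adj_e1 : adjZ (res (Heis ℤ) e1) = toM E1t := by
  ext1 i j
  rw [adjZ_res]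
  fin_cases i <;> fin_cases j <;> simp [toM, ev, E1t, e1, MonoidAlgebra.one_def]

theorem adj_f0 : adjZ (res (Heis ℤ) f0) = toM D0t := by
  ext1 i j
  rw [adjZ_res]
  fin_cases i <;> fin_cases j <;> simp [toM, ev, D0t, f0, MonoidAlgebra.one_def]

theorem adj_f1 : adjZ (res (Heis ℤ) f1) = toM D1t := by
  ext1 i j
  rw [adjZ_res]
  fin_cases i <;> fin_cases j <;> simp [toM, ev, D1t, f1, MonoidAlgebra.one_def]

/-- the blocks of the boundary matrices -/
def cR (_ : Fin 1) : Row 3 (Heis ℤ) :=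
  [(0, 1, ⟨0, 0, 1⟩), (0, -1, 1), (1, 1, 1), (1, -1, ⟨0, 1, 1⟩), (2, 1, ⟨1, 0, 0⟩),
    (2, -1, ⟨0, 0, 1⟩)]
def gR : Bool → Fin 1 → Row 1 (Heis ℤ)
  | true, _ => [(0, 1, 1), (0, 10, ⟨1, 0, 0⟩), (0, -10, ⟨1, 1, 0⟩)]
  | false, _ => [(0, 1, 1)]
def dR (j : Fin 3) : Row 3 (Heis ℤ) := B2 j.castSucc

theorem W1 (b : Bool) : toM (B3 b) * res (Heis ℤ) e3 = res (Heis ℤ) f0 * toM cR := by
  rw [res_e3, res_f0, toM_mul, toM_mul]
  apply toM_eq
  cases b <;> decide +kernel

theorem W2 (b : Bool) : toM (B3 b) * res (Heis ℤ) e1 = res (Heis ℤ) f1 * toM (gR b) := by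
  rw [res_e1, res_f1, toM_mul, toM_mul]
  apply toM_eq
  cases b <;> decide +kernel

theorem W3 (b : Bool) : adjZ (res (Heis ℤ) f0) * toM (B3 b)
    = toM cR * adjZ (res (Heis ℤ) e3) := by
  rw [adj_e3, adj_f0, toM_mul, toM_mul]
  apply toM_eq
  cases b <;> decide +kernel

theorem W4 (b : Bool) : adjZ (res (Heis ℤ) f1) * toM (B3 b)
    = toM (gR b) * adjZ (res (Heis ℤ) e1) := by
  rw [adj_e1, adj_f1, toM_mul, toM_mul]
  apply toM_eq
  cases b <;> decide +kernel

theorem W5 : toM B2 = res (Heis ℤ) e3 * toM dR := by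
  rw [res_e3, toM_mul]
  apply toM_eq
  decide +kernel

/-- the group ring elements -/
def gel : Bool → MonoidAlgebra ℤ (Heis ℤ)
  | true => elt ℤ 10
  | false => 1

theorem toM_gR : ∀ b, toM (gR b) = one1 (gel b)
  | true => toM_aR
  | false => by
    ext1 i j
    have hi : (0 : Fin 1) = j := Subsingleton.elim _ _
    unfold toM gR ev one1 gel
    simp only [Matrix.of_apply, List.map_cons, List.map_nil, List.sum_cons, List.sum_nil, add_zero,
      if_pos hi]
    exact MonoidAlgebra.one_def.symm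

section quotient
variable {Q : Type} [Group Q] (p : Heis ℤ →* Q)

/-- the ring homomorphism -/
def PR : MonoidAlgebra ℤ (Heis ℤ) →+* MonoidAlgebra ℤ Q := MonoidAlgebra.mapDomainRingHom ℤ p

theorem res_map {r s : ℕ} (e : Fin s → Fin r) : (res (Heis ℤ) e).map (PR p) = res Q e := by
  ext1 i j
  rw [Matrix.map_apply, res_apply, res_apply]
  split_ifs
  · exact map_one _
  · exact map_zero _

theorem adj_map {r s : ℕ} (A : Matrix (Fin r) (Fin s) (MonoidAlgebra ℤ (Heis ℤ))) :
    (adjZ A).map (PR p) = adjZ (A.map (PR p)) := mapDomain_adjZ p A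

theorem add_map {r s : ℕ} (A B : Matrix (Fin r) (Fin s) (MonoidAlgebra ℤ (Heis ℤ))) :
    (A + B).map (PR p) = A.map (PR p) + B.map (PR p) := Matrix.map_add _ (map_add _) A B

theorem one1_map (a : MonoidAlgebra ℤ (Heis ℤ)) : (one1 a).map (PR p) = one1 (PR p a) := rfl

theorem elim_e : Function.Bijective (Sum.elim e3 e1) := by
  decide

theorem elim_f : Function.Bijective (Sum.elim f0 f1) := by
  decide

theorem e3_inj : Function.Injective e3 := Fin.castSucc_injective 3

theorem e3_ne (i : Fin 3) (j : Fin 1) : e3 i ≠ e1 j := by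
  revert i j
  decide

variable [Finite Q]

/-- the logarithm of the determinant of the Laplacian in degree two over the quotient -/
theorem log_two (b : Bool) :
    Real.log (fkDet (rMul (((adjZ (toM (B3 b)) * toM (B3 b) + toM B2 * adjZ (toM B2)).map
        (PR p)).map toQ)))
      = Real.log (fkDet (rMul (((adjZ (toM cR) * toM cR + toM dR * adjZ (toM dR)).map
        (PR p)).map toQ)))
      + Real.log (fkDet (rMul ((adjZ (one1 (PR p (gel b))) * one1 (PR p (gel b))).map toQ))) := by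
  have w1 := congrArg (fun A => A.map (PR p)) (W1 b)
  have w2 := congrArg (fun A => A.map (PR p)) (W2 b)
  have w3 := congrArg (fun A => A.map (PR p)) (W3 b)
  have w4 := congrArg (fun A => A.map (PR p)) (W4 b)
  have w5 := congrArg (fun A => A.map (PR p)) W5
  simp only [Matrix.map_mul, adj_map, res_map, toM_gR, one1_map] at w1 w2 w3 w4 w5
  rw [add_map, add_map]
  simp only [Matrix.map_mul, adj_map]
  obtain ⟨k1, k2⟩ := lap_two_block e3_inj e3_ne w1 w2 w3 w4 w5
  exact log_fkDet_block elim_e (adjZ_self_two _ _) (adjZ_self_two _ _) (adjZ_self_one' _) k1 k2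

theorem log_three (b : Bool) :
    Real.log (fkDet (rMul (((toM (B3 b) * adjZ (toM (B3 b))).map (PR p)).map toQ)))
      = Real.log (fkDet (rMul (((toM cR * adjZ (toM cR)).map (PR p)).map toQ)))
      + Real.log (fkDet (rMul ((one1 (PR p (gel b)) * adjZ (one1 (PR p (gel b)))).map toQ))) := by
  have w1 := congrArg (fun A => A.map (PR p)) (W1 b)
  have w2 := congrArg (fun A => A.map (PR p)) (W2 b)
  have w3 := congrArg (fun A => A.map (PR p)) (W3 b)
  have w4 := congrArg (fun A => A.map (PR p)) (W4 b)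
  simp only [Matrix.map_mul, adj_map, res_map, toM_gR, one1_map] at w1 w2 w3 w4
  simp only [Matrix.map_mul, adj_map]
  obtain ⟨k1, k2⟩ := lap_three_block w1 w2 w3 w4
  exact log_fkDet_block elim_f (adjZ_self_one _) (adjZ_self_one _) (adjZ_self_one _) k1 k2

end quotient

/-! ### the levels -/

/-- the projection -/
abbrev pr (i : ℕ) : Heis ℤ →* Heis ℤ ⧸ chain i := QuotientGroup.mk' (chain i)

theorem cm_gel_true (i : ℕ) [Fintype (Heis ℤ ⧸ chain i)] [DecidableEq (Heis ℤ ⧸ chain i)] :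
    (cm (PR (pr i) (gel true))).det = Dseq i := by
  rw [← det_cast i]
  have h := RingHom.map_det (Int.castRingHom ℂ)
    (gmat (MonoidAlgebra.mapDomain (QuotientGroup.mk' (chain i)) (elt ℤ 10)))
  rw [eq_intCast] at h
  rw [h]
  rfl

theorem cm_gel_false (i : ℕ) [Fintype (Heis ℤ ⧸ chain i)] [DecidableEq (Heis ℤ ⧸ chain i)] :
    (cm (PR (pr i) (gel false))).det = 1 := by
  have h : PR (pr i) (gel false) = 1 := map_one _
  rw [h, cm_one, Matrix.det_one]

/-- the logarithm of the determinant of the group ring element -/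
def lg : Bool → ℕ → ℝ
  | true, i => Real.log ‖Dseq i‖ / (Nat.card (Heis ℤ ⧸ chain i) : ℝ)
  | false, _ => 0

theorem lg_left (b : Bool) (i : ℕ) :
    Real.log (fkDet (rMul ((adjZ (one1 (PR (pr i) (gel b))) * one1 (PR (pr i) (gel b))).map toQ)))
      = 2 * lg b i := by
  classical
  have : Fintype (Heis ℤ ⧸ chain i) := Fintype.ofFinite _
  cases b with
  | true =>
    rw [log_fkDet_adj_mul, cm_gel_true]
    · rfl
    · rw [cm_gel_true]
      exact Dseq_ne i
  | false =>
    rw [log_fkDet_adj_mul, cm_gel_false]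
    · simp [lg]
    · rw [cm_gel_false]
      exact one_ne_zero

theorem lg_right (b : Bool) (i : ℕ) :
    Real.log (fkDet (rMul ((one1 (PR (pr i) (gel b)) * adjZ (one1 (PR (pr i) (gel b)))).map toQ)))
      = 2 * lg b i := by
  classical
  have : Fintype (Heis ℤ ⧸ chain i) := Fintype.ofFinite _
  cases b with
  | true =>
    rw [log_fkDet_mul_adj, cm_gel_true]
    · rfl
    · rw [cm_gel_true]
      exact Dseq_ne i
  | false =>
    rw [log_fkDet_mul_adj, cm_gel_false]
    · simp [lg]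
    · rw [cm_gel_false]
      exact one_ne_zero

/-- the logarithm of the determinant of the Laplacian of a level -/
def ld (b : Bool) (i n : ℕ) : ℝ :=
  Real.log (fkDet (((hcx b).sevenManifold.quot (chain i)).laplacian n))

theorem ld_eq (b : Bool) (i n : ℕ) : ld b i n
    = Real.log (fkDet (rMul ((((hcx b).sevenManifold.lapM n).map (PR (pr i))).map toQ))) := by
  unfold ld
  rw [FreeCx.laplacian_eq, FreeCx.quot_lapM]
  rfl

/-- the common parts -/
def k2 (i : ℕ) : ℝ := Real.log (fkDet (rMul (((adjZ (toM cR) * toM cR + toM dR * adjZ (toM dR)).map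
        (PR (pr i))).map toQ)))
def k3 (i : ℕ) : ℝ := Real.log (fkDet (rMul (((toM cR * adjZ (toM cR)).map (PR (pr i))).map toQ)))

end Pool.Agent.R782
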