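import Pool.Agent.R782.SevenFin

/-!
The torsions of the finite coverings of the two closed `7`-manifolds do not both converge.
-/

open scoped Matrix InnerProductSpace Topology

noncomputable section

namespace Pool.Agent.R782

open Pool.Agent.Helper993.HeisDet Pool.Agent.Helper993.Cpx Pool.Agent.TH630.Tor
  Pool.Agent.Helper993.SP Pool.Agent.Helper993.FK Pool.Agent.Helper993.Delta ContinuousLinearMap
  Pool.Agent.Helper993.LT

section general
variable {G : Type} [Group G] (X : ThreeCx G)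

theorem glapM2 : (X.sevenManifold.lapM 2 : Matrix (Fin X.k) (Fin X.k) (MonoidAlgebra ℤ G))
    = adjZ X.b3 * X.b3 + X.b2 * adjZ X.b2 := rfl

theorem glapM3 : (X.sevenManifold.lapM 3 : Matrix (Fin X.l) (Fin X.l) (MonoidAlgebra ℤ G))
    = X.b3 * adjZ X.b3 := by
  change adjZ (0 : Matrix (Fin X.l) (Fin X.l) (MonoidAlgebra ℤ G))
    * (0 : Matrix (Fin X.l) (Fin X.l) (MonoidAlgebra ℤ G)) + X.b3 * adjZ X.b3 = _
  rw [Matrix.mul_zero, zero_add]

theorem glapM4 : (X.sevenManifold.lapM 4 : Matrix (Fin X.l) (Fin X.l) (MonoidAlgebra ℤ G))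
    = X.b3 * adjZ X.b3 := by
  change adjZ (adjZ X.b3) * adjZ X.b3
    + (0 : Matrix (Fin X.l) (Fin X.l) (MonoidAlgebra ℤ G))
      * adjZ (0 : Matrix (Fin X.l) (Fin X.l) (MonoidAlgebra ℤ G)) = _
  rw [Matrix.zero_mul, add_zero, adjZ_adjZ]

theorem glapM5 : (X.sevenManifold.lapM 5 : Matrix (Fin X.k) (Fin X.k) (MonoidAlgebra ℤ G))
    = adjZ X.b3 * X.b3 + X.b2 * adjZ X.b2 := by
  change adjZ (adjZ X.b2) * adjZ X.b2 + adjZ X.b3 * adjZ (adjZ X.b3) = _
  rw [adjZ_adjZ, adjZ_adjZ, add_comm]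

theorem glapM1 : (X.sevenManifold.lapM 1 : Matrix (Fin X.m) (Fin X.m) (MonoidAlgebra ℤ G))
    = adjZ X.b2 * X.b2 + X.b1 * adjZ X.b1 := rfl

theorem glapM6 : (X.sevenManifold.lapM 6 : Matrix (Fin X.m) (Fin X.m) (MonoidAlgebra ℤ G))
    = adjZ X.b2 * X.b2 + X.b1 * adjZ X.b1 := by
  change adjZ (adjZ X.b1) * adjZ X.b1 + adjZ X.b2 * adjZ (adjZ X.b2) = _
  rw [adjZ_adjZ, adjZ_adjZ, add_comm]

theorem glapM7 : (X.sevenManifold.lapM 7 : Matrix (Fin 1) (Fin 1) (MonoidAlgebra ℤ G))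
    = adjZ X.b1 * X.b1 := by
  change adjZ (0 : Matrix (Fin 0) (Fin 1) (MonoidAlgebra ℤ G))
    * (0 : Matrix (Fin 0) (Fin 1) (MonoidAlgebra ℤ G)) + adjZ X.b1 * adjZ (adjZ X.b1) = _
  rw [Matrix.mul_zero, zero_add, adjZ_adjZ]

end general

/-- the logarithm of the determinant of a matrix over a quotient -/
def lq {r : ℕ} (i : ℕ) (A : Matrix (Fin r) (Fin r) (MonoidAlgebra ℤ (Heis ℤ))) : ℝ :=
  Real.log (fkDet (rMul ((A.map (PR (pr i))).map toQ)))

theorem hb2 (b : Bool) : (hcx b).b2 = toM B2 := b2_eq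

theorem hb3 (b : Bool) : (hcx b).b3 = toM (B3 b) := rfl

theorem ld_lq (b : Bool) (i n : ℕ) : ld b i n = lq i ((hcx b).sevenManifold.lapM n) := ld_eq b i n

theorem ld2 (b : Bool) (i : ℕ) : ld b i 2 = k2 i + 2 * lg b i := by
  rw [ld_lq, ← lg_left]
  have e : lq i ((hcx b).sevenManifold.lapM 2)
      = lq i (adjZ (hcx b).b3 * (hcx b).b3 + (hcx b).b2 * adjZ (hcx b).b2) := rfl
  rw [e, hb2, hb3]
  exact log_two (pr i) b

theorem ld3 (b : Bool) (i : ℕ) : ld b i 3 = k3 i + 2 * lg b i := by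
  rw [ld_lq, ← lg_right]
  have e : lq i ((hcx b).sevenManifold.lapM 3) = lq i ((hcx b).b3 * adjZ (hcx b).b3) :=
    congrArg (lq i) (glapM3 (hcx b))
  rw [e, hb3]
  exact log_three (pr i) b

theorem ld4 (b : Bool) (i : ℕ) : ld b i 4 = k3 i + 2 * lg b i := by
  rw [ld_lq, ← lg_right]
  have e : lq i ((hcx b).sevenManifold.lapM 4) = lq i ((hcx b).b3 * adjZ (hcx b).b3) :=
    congrArg (lq i) (glapM4 (hcx b))
  rw [e, hb3]
  exact log_three (pr i) b

theorem ld5 (b : Bool) (i : ℕ) : ld b i 5 = k2 i + 2 * lg b i := by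
  rw [ld_lq, ← lg_left]
  have e : lq i ((hcx b).sevenManifold.lapM 5)
      = lq i (adjZ (hcx b).b3 * (hcx b).b3 + (hcx b).b2 * adjZ (hcx b).b2) :=
    congrArg (lq i) (glapM5 (hcx b))
  rw [e, hb2, hb3]
  exact log_two (pr i) b

theorem hb1 (b : Bool) : (hcx b).b1 = toM B1 := b1_eq

/-- the other degrees -/
def k1 (i : ℕ) : ℝ := lq i (adjZ (toM B2) * toM B2 + toM B1 * adjZ (toM B1))
def k0 (i : ℕ) : ℝ := lq i (adjZ (toM B1) * toM B1)

theorem ld1 (b : Bool) (i : ℕ) : ld b i 1 = k1 i := by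
  rw [ld_lq]
  have e : lq i ((hcx b).sevenManifold.lapM 1)
      = lq i (adjZ (hcx b).b2 * (hcx b).b2 + (hcx b).b1 * adjZ (hcx b).b1) := rfl
  rw [e, hb2, hb1]
  rfl

theorem ld6 (b : Bool) (i : ℕ) : ld b i 6 = k1 i := by
  rw [ld_lq]
  have e : lq i ((hcx b).sevenManifold.lapM 6)
      = lq i (adjZ (hcx b).b2 * (hcx b).b2 + (hcx b).b1 * adjZ (hcx b).b1) :=
    congrArg (lq i) (glapM6 (hcx b))
  rw [e, hb2, hb1]
  rfl

theorem ld7 (b : Bool) (i : ℕ) : ld b i 7 = k0 i := by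
  rw [ld_lq]
  have e : lq i ((hcx b).sevenManifold.lapM 7) = lq i (adjZ (hcx b).b1 * (hcx b).b1) :=
    congrArg (lq i) (glapM7 (hcx b))
  rw [e, hb1]
  rfl

theorem torsion_ld (b : Bool) (i : ℕ) : ((hcx b).sevenManifold.quot (chain i)).l2torsion
    = -(1 / 2) * ∑ n ∈ Finset.range 8, (-1) ^ n * n * ld b i n := by
  unfold FreeCx.l2torsion ld
  have h : ((hcx b).sevenManifold.quot (chain i)).dim + 1 = 8 := rfl
  rw [h]

theorem torsion_eq (b : Bool) (i : ℕ) : ((hcx b).sevenManifold.quot (chain i)).l2torsion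
    = -(1 / 2) * (-3 * k2 i + k3 i + 5 * k1 i - 7 * k0 i) + 2 * lg b i := by
  rw [torsion_ld, Finset.sum_range_succ, Finset.sum_range_succ, Finset.sum_range_succ,
    Finset.sum_range_succ, Finset.sum_range_succ, Finset.sum_range_succ, Finset.sum_range_succ,
    Finset.sum_range_succ, Finset.sum_range_zero, ld1, ld2, ld3, ld4, ld5, ld6, ld7]
  push_cast
  ring

theorem torsion_diff (i : ℕ) : ((hcx true).sevenManifold.quot (chain i)).l2torsion
    - ((hcx false).sevenManifold.quot (chain i)).l2torsion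
    = 2 * (Real.log ‖Dseq i‖ / (Nat.card (Heis ℤ ⧸ chain i) : ℝ)) := by
  have e8 : lg true i = Real.log ‖Dseq i‖ / (Nat.card (Heis ℤ ⧸ chain i) : ℝ) := rfl
  have e9 : lg false i = 0 := rfl
  rw [torsion_eq, torsion_eq, e8, e9]
  ring

/-- One of the two closed `7`-manifolds has finite coverings whose torsions do not converge. -/
theorem exists_no_limit7 : ∃ b : Bool, ∀ L : ℝ, ¬ Filter.Tendsto
    (fun i => ((hcx b).sevenManifold.quot (chain i)).l2torsion) Filter.atTop (𝓝 L) := by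
  by_contra hcon
  push Not at hcon
  obtain ⟨L1, h1⟩ := hcon true
  obtain ⟨L2, h2⟩ := hcon false
  apply no_limit (1 / 2 * (L1 - L2))
  have h3 := (h1.sub h2).const_mul (1 / 2)
  refine h3.congr fun i => ?_
  rw [torsion_diff]
  ring

end Pool.Agent.R782
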