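import Pool.Agent.R782.FinClose
import Pool.Agent.TH630.Tor.TorusFin

/-!
A chain of normal subgroups of finite index of `Heis × ℤ` such that the torsions of the finite
coverings of the closed aspherical `3`-manifold do not converge.
-/

open scoped Matrix Topology

noncomputable section

namespace Pool.Agent.R782

open Pool.Agent.Helper993.FK Pool.Agent.Helper993.HeisDet Pool.Agent.TH630.Tor
  Pool.Agent.Helper993.Delta Filter

/-- The torsion at the level `i` of the chain of subgroups of infinite index. -/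
def tlev (i : ℕ) : ℝ := -(1 / 2) * ∑ k ∈ Finset.range (X3.toCx.dim + 1),
  (-1) ^ k * k * logDet (prF i) prZ (X3.toCx.lapM k)

theorem tlev_eq {i : ℕ} (hi : 1 ≤ i) : (X3.toCx.quot (chainZ i)).l2torsion = tlev i :=
  (X3.toCx.level' (chainZ i) (prF i) prZ (mem_chainZ hi) (nondeg_X3 i)).2

theorem exists_step (i : ℕ) {m : ℕ} (hm : 0 < m) : ∃ n : ℕ, i ≤ n ∧ m ∣ n ∧ 0 < n ∧
    ∀ (N : Subgroup HZ) [N.Normal],
      (∀ g, g ∈ N ↔ prF i g = 1 ∧ (n : ℤ) ∣ Multiplicative.toAdd (prZ g)) → Finite (HZ ⧸ N) →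
        |(X3.toCx.quot N).l2torsion - tlev i| ≤ 1 / ((i : ℝ) + 1) :=
  exists_close (prF i) prZ X3.toCx (nondeg_X3 i) hm i (by positivity)

/-- The indices in the second factor. -/
def nseq : ℕ → {n : ℕ // 0 < n}
  | 0 => ⟨1, one_pos⟩
  | i + 1 => ⟨(exists_step (i + 1) (nseq i).2).choose,
      (exists_step (i + 1) (nseq i).2).choose_spec.2.2.1⟩

theorem nseq_dvd_succ (i : ℕ) : (nseq i).1 ∣ (nseq (i + 1)).1 :=
  (exists_step (i + 1) (nseq i).2).choose_spec.2.1

theorem nseq_ge (i : ℕ) : i ≤ (nseq i).1 := by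
  rcases i with _ | i
  · exact Nat.zero_le _
  · exact (exists_step (i + 1) (nseq i).2).choose_spec.1

theorem nseq_close {i : ℕ} (hi : 1 ≤ i) (N : Subgroup HZ) [N.Normal]
    (hN : ∀ g, g ∈ N ↔ prF i g = 1 ∧ ((nseq i).1 : ℤ) ∣ Multiplicative.toAdd (prZ g))
    (hfin : Finite (HZ ⧸ N)) :
    |(X3.toCx.quot N).l2torsion - tlev i| ≤ 1 / ((i : ℝ) + 1) := by
  obtain ⟨j, rfl⟩ : ∃ j, i = j + 1 := ⟨i - 1, by omega⟩
  exact (exists_step (j + 1) (nseq j).2).choose_spec.2.2.2 N hN hfin

theorem nseq_dvd {i j : ℕ} (h : i ≤ j) : (nseq i).1 ∣ (nseq j).1 := by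
  induction j, h using Nat.le_induction with
  | base => exact dvd_rfl
  | succ j _ ih => exact ih.trans (nseq_dvd_succ j)

/-- The chain of normal subgroups of finite index: the whole group, and then
`chain i × n_i ℤ`. -/
def chainF (i : ℕ) : Subgroup HZ :=
  if i = 0 then ⊤ else (chain i).prod (Subgroup.zpowers (Multiplicative.ofAdd ((nseq i).1 : ℤ)))

theorem chainF_zero : chainF 0 = ⊤ := rfl

theorem mem_zp (n : ℕ) (g : Multiplicative ℤ) :
    g ∈ Subgroup.zpowers (Multiplicative.ofAdd (n : ℤ)) ↔ (n : ℤ) ∣ Multiplicative.toAdd g := by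
  rw [Subgroup.mem_zpowers_iff]
  constructor
  · rintro ⟨k, rfl⟩
    rw [toAdd_zpow, toAdd_ofAdd, smul_eq_mul]
    exact dvd_mul_left _ _
  · rintro ⟨k, hk⟩
    refine ⟨k, ?_⟩
    apply Multiplicative.toAdd.injective
    rw [toAdd_zpow, toAdd_ofAdd, smul_eq_mul, hk, mul_comm]

theorem mem_chainF {i : ℕ} (hi : 1 ≤ i) (g : HZ) :
    g ∈ chainF i ↔ prF i g = 1 ∧ ((nseq i).1 : ℤ) ∣ Multiplicative.toAdd (prZ g) := by
  unfold chainF
  rw [if_neg (by omega), Subgroup.mem_prod]
  exact and_congr (QuotientGroup.eq_one_iff g.1).symm (mem_zp _ _)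

instance chainF_normal (i : ℕ) : (chainF i).Normal := by
  unfold chainF
  split_ifs
  · infer_instance
  · exact Subgroup.prod_normal _ _

theorem chainF_anti : Antitone chainF := by
  intro i j hij g hg
  rcases Nat.eq_zero_or_pos i with rfl | hi
  · rw [chainF_zero]; exact Subgroup.mem_top g
  · rw [mem_chainF (by omega)] at hg ⊢
    refine ⟨?_, (Int.natCast_dvd_natCast.mpr (nseq_dvd hij)).trans hg.2⟩
    have h1 : g.1 ∈ chain j := (QuotientGroup.eq_one_iff g.1).mp hg.1
    exact (QuotientGroup.eq_one_iff g.1).mpr (chain_anti hij h1)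

theorem chainF_inf : ⨅ i, chainF i = ⊥ := by
  rw [eq_bot_iff]
  intro g hg
  rw [Subgroup.mem_iInf] at hg
  have h1 : g.2 = 1 := by
    set a : ℤ := Multiplicative.toAdd g.2 with ha
    have h2 := ((mem_chainF (Nat.le_add_left 1 a.natAbs) g).mp (hg (a.natAbs + 1))).2
    have h3 : a = 0 := by
      refine Int.eq_zero_of_abs_lt_dvd h2 ?_
      have h4 := nseq_ge (a.natAbs + 1)
      have h5 : |a| = (a.natAbs : ℤ) := Int.abs_eq_natAbs a
      rw [h5]
      exact_mod_cast (by omega : a.natAbs < (nseq (a.natAbs + 1)).1)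
    exact Multiplicative.toAdd.injective h3
  have h2 : g.1 ∈ ⨅ i, chain i := by
    rw [Subgroup.mem_iInf]
    intro i
    have h3 := ((mem_chainF (Nat.le_add_left 1 i) g).mp (hg (i + 1))).1
    exact chain_anti (Nat.le_succ i) ((QuotientGroup.eq_one_iff g.1).mp h3)
  rw [chain_inf, Subgroup.mem_bot] at h2
  exact Subgroup.mem_bot.mpr (Prod.ext h2 h1)

instance chainF_finite (i : ℕ) : Finite (HZ ⧸ chainF i) := by
  rcases Nat.eq_zero_or_pos i with rfl | hi
  · rw [chainF_zero]
    infer_instance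
  · unfold chainF
    rw [if_neg (by omega)]
    apply Nat.finite_of_card_ne_zero
    change Subgroup.index _ ≠ 0
    rw [Subgroup.index_prod]
    refine mul_ne_zero ?_ ?_
    · exact (Nat.card_pos (α := Heis ℤ ⧸ chain i)).ne'
    · have h1 : Subgroup.index (Subgroup.zpowers (Multiplicative.ofAdd ((nseq i).1 : ℤ)))
          = (nseq i).1 := by
        have := Int.index_zmultiples ((nseq i).1 : ℤ)
        rw [Int.natAbs_natCast] at this
        exact this
      rw [h1]
      exact (nseq i).2.ne'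

/-- The torsions of the finite coverings do not converge. -/
theorem no_limit_F (L : ℝ) : ¬ Tendsto
    (fun i => (X3.toCx.quot (chainF i)).l2torsion) atTop (𝓝 L) := by
  intro h
  apply no_limit_X3 L
  have h1 : Tendsto (fun i : ℕ => (1 : ℝ) / ((i : ℝ) + 1)) atTop (𝓝 0) :=
    tendsto_one_div_add_atTop_nhds_zero_nat
  rw [tendsto_iff_dist_tendsto_zero] at h ⊢
  have h2 := h1.add h
  rw [add_zero] at h2
  refine squeeze_zero' (Eventually.of_forall fun i => dist_nonneg) ?_ h2
  filter_upwards [eventually_ge_atTop 1] with i hi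
  have h3 := nseq_close hi (chainF i) (mem_chainF hi) (chainF_finite i)
  refine (dist_triangle _ ((X3.toCx.quot (chainF i)).l2torsion) _).trans ?_
  gcongr
  rw [dist_comm, Real.dist_eq, tlev_eq hi]
  exact h3

theorem pos_F (i n : ℕ) : 0 < fkDet ((X3.toCx.quot (chainF i)).laplacian n) := by
  rw [FreeCx.laplacian_eq]
  exact fkDet_pos_finite _

end Pool.Agent.R782
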